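import Mathlib

set_option autoImplicit false

/-!
# Ch: binomial coefficients
-/

namespace Pool.Agent.Lib.MP_c5b475_co.AA.U

theorem self_pow_le (r : ℕ) : r ^ r ≤ 3 ^ r * r.factorial := by
  have h1 : (r : ℝ) ^ r / (r.factorial : ℝ) ≤ Real.exp r :=
    Real.pow_div_factorial_le_exp (r : ℝ) (Nat.cast_nonneg r) r
  have h2 : Real.exp (r : ℝ) ≤ 3 ^ r := by
    have h3 : Real.exp (r : ℝ) = Real.exp 1 ^ r := by
      rw [← Real.exp_nat_mul]; ring_nf
    rw [h3]
    have h4 : Real.exp 1 ≤ 3 := by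
      have := Real.exp_one_lt_d9
      linarith
    exact pow_le_pow_left₀ (Real.exp_pos 1).le h4 r
  have h5 : (0 : ℝ) < (r.factorial : ℝ) := by exact_mod_cast Nat.factorial_pos r
  have h6 : (r : ℝ) ^ r ≤ 3 ^ r * (r.factorial : ℝ) := by
    have h7 := h1.trans h2
    rwa [div_le_iff₀ h5] at h7
  exact_mod_cast h6

theorem choose_mul_le (m r : ℕ) : m.choose r * r ^ r ≤ (3 * m) ^ r := by
  have h1 : r.factorial * m.choose r ≤ m ^ r := by
    rw [← Nat.descFactorial_eq_factorial_mul_choose]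
    exact Nat.descFactorial_le_pow m r
  calc m.choose r * r ^ r ≤ m.choose r * (3 ^ r * r.factorial) :=
        Nat.mul_le_mul_left _ (self_pow_le r)
    _ = 3 ^ r * (r.factorial * m.choose r) := by ring
    _ ≤ 3 ^ r * m ^ r := Nat.mul_le_mul_left _ h1
    _ = (3 * m) ^ r := by rw [mul_pow]

theorem choose_two (N w k : ℕ) :
    (2 * N).choose w * (w ^ 2).choose (w + k) ≤ (18 * N) ^ w * w ^ (2 * k) := by
  have h1 : w.factorial * (2 * N).choose w ≤ (2 * N) ^ w := by
    rw [← Nat.descFactorial_eq_factorial_mul_choose]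
    exact Nat.descFactorial_le_pow (2 * N) w
  have h2 : (w + k).factorial * (w ^ 2).choose (w + k) ≤ (w ^ 2) ^ (w + k) := by
    rw [← Nat.descFactorial_eq_factorial_mul_choose]
    exact Nat.descFactorial_le_pow (w ^ 2) (w + k)
  have h3 : w.factorial ≤ (w + k).factorial := Nat.factorial_le (Nat.le_add_right w k)
  have h4 := self_pow_le w
  have h5 : 0 < w.factorial * w.factorial :=
    Nat.mul_pos (Nat.factorial_pos w) (Nat.factorial_pos w)
  apply Nat.le_of_mul_le_mul_left _ h5
  calc w.factorial * w.factorial * ((2 * N).choose w * (w ^ 2).choose (w + k))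
      = (w.factorial * (2 * N).choose w) * (w.factorial * (w ^ 2).choose (w + k)) := by ring
    _ ≤ (2 * N) ^ w * (w ^ 2) ^ (w + k) :=
        Nat.mul_le_mul h1 ((Nat.mul_le_mul_right _ h3).trans h2)
    _ = (2 * N) ^ w * (w ^ w * w ^ w) * w ^ (2 * k) := by
        rw [pow_add, ← pow_mul, ← pow_mul, two_mul w, pow_add]; ring
    _ ≤ (2 * N) ^ w * ((3 ^ w * w.factorial) * (3 ^ w * w.factorial)) * w ^ (2 * k) := by
        apply Nat.mul_le_mul_right
        apply Nat.mul_le_mul_left
        exact Nat.mul_le_mul h4 h4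
    _ = w.factorial * w.factorial * ((18 * N) ^ w * w ^ (2 * k)) := by
        have h6 : (18 * N) ^ w = (2 * N) ^ w * (3 ^ w * 3 ^ w) := by
          rw [← mul_pow, ← mul_pow]; congr 1; ring
        rw [h6]; ring

end Pool.Agent.Lib.MP_c5b475_co.AA.U
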