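import Pool.Agent.Lib.MP_c5b475_co.AA.PF1

set_option autoImplicit false

/-!
# Pf (15 min): probability that a set of edges is present, explicit

As `pf` in AA/PF.lean (copy the proof): the only use of `N0` is `2 * (2 * n ^ 2 + F.card) ≤ n * N`.
-/

namespace Pool.Agent.Lib.MP_c5b475_co.AA.U

open Finset

theorem pf (n m N : ℕ) (hn : 1 ≤ n) (hN : 2 * (2 * n ^ 2 + m) ≤ n * N)
    (F : Finset (Fin N × Fin N)) (hF : F.card ≤ m) :
    ((BReg N n).filter fun E => F ⊆ E).card * N ^ F.card ≤ (2 * n) ^ F.card * (BReg N n).card := by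
  induction hk : F.card generalizing F with
  | zero =>
    have hF0 : F = ∅ := Finset.card_eq_zero.1 hk
    subst hF0
    simp
  | succ k ih =>
    obtain ⟨e, he⟩ : F.Nonempty := by
      rw [← Finset.card_pos]; omega
    have hk' : (F.erase e).card = k := by
      rw [Finset.card_erase_of_mem he, hk]; rfl
    have h1 := ih (F.erase e) (by omega) hk'
    have h2 := pf_step n F he
    set A := ((BReg N n).filter fun E => F ⊆ E).card with hA
    set A' := ((BReg N n).filter fun E => F.erase e ⊆ E).card with hA'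
    have h4 : n * N ≤ 2 * (n * N - (2 * n ^ 2 + F.card)) := by omega
    have h5 : n * (A * N) ≤ n * (2 * n * A') := by
      calc n * (A * N) = A * (n * N) := by ring
        _ ≤ A * (2 * (n * N - (2 * n ^ 2 + F.card))) := Nat.mul_le_mul_left A h4
        _ = 2 * (A * (n * N - (2 * n ^ 2 + F.card))) := by ring
        _ ≤ 2 * (n ^ 2 * A') := Nat.mul_le_mul_left 2 h2
        _ = n * (2 * n * A') := by ring
    have h6 : A * N ≤ 2 * n * A' := Nat.le_of_mul_le_mul_left h5 hn
    calc A * N ^ (k + 1) = (A * N) * N ^ k := by ring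
      _ ≤ (2 * n * A') * N ^ k := Nat.mul_le_mul_right _ h6
      _ = 2 * n * (A' * N ^ k) := by ring
      _ ≤ 2 * n * ((2 * n) ^ k * (BReg N n).card) := Nat.mul_le_mul_left _ h1
      _ = (2 * n) ^ (k + 1) * (BReg N n).card := by ring

end Pool.Agent.Lib.MP_c5b475_co.AA.U
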