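import Pool.Agent.Lib.MP_c5b475_co.AA.CNT
import Pool.Agent.Lib.MP_c5b475_co.AA.U.Pf
import Pool.Agent.Lib.MP_c5b475_co.AA.U.Ch

set_option autoImplicit false

/-!
# Cnt: expected number of small dense sets, explicit
-/

namespace Pool.Agent.Lib.MP_c5b475_co.AA.U

open Finset

private theorem cnt_pw {N : ℕ} (W : Finset (Fin N ⊕ Fin N)) : (pw W).card ≤ W.card ^ 2 := by
  rw [sq, ← card_product]
  apply card_le_card_of_injOn (fun p => (Sum.inl p.1, Sum.inr p.2))
  · intro p hp
    simp only [pw, mem_coe, mem_filter, mem_univ, true_and] at hp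
    simp only [mem_coe, mem_product]
    exact hp
  · intro p _ r _ h
    simp only [Prod.mk.injEq, Sum.inl.injEq, Sum.inr.injEq] at h
    exact Prod.ext h.1 h.2

theorem cnt (n w k N : ℕ) (hn : 1 ≤ n) (h1 : 1 ≤ N) (hN : 2 * (2 * n ^ 2 + (w + k)) ≤ n * N) :
    (∑ W ∈ powersetCard w (univ : Finset (Fin N ⊕ Fin N)), ∑ F ∈ powersetCard (w + k) (pw W),
      ((BReg N n).filter fun E => F ⊆ E).card) * N ^ k ≤
      w ^ (2 * k) * (36 * n) ^ w * (2 * n) ^ k * (BReg N n).card := by
  have h2 : ∀ W ∈ powersetCard w (univ : Finset (Fin N ⊕ Fin N)),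
      (∑ F ∈ powersetCard (w + k) (pw W), ((BReg N n).filter fun E => F ⊆ E).card) * N ^ (w + k) ≤
        (w ^ 2).choose (w + k) * ((2 * n) ^ (w + k) * (BReg N n).card) := by
    intro W hW
    rw [mem_powersetCard] at hW
    rw [sum_mul]
    have h3 : ∀ F ∈ powersetCard (w + k) (pw W),
        ((BReg N n).filter fun E => F ⊆ E).card * N ^ (w + k) ≤
          (2 * n) ^ (w + k) * (BReg N n).card := by
      intro F hF
      rw [mem_powersetCard] at hF
      have := pf n (w + k) N hn hN F hF.2.le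
      rw [hF.2] at this
      exact this
    refine (sum_le_card_nsmul _ _ _ h3).trans ?_
    rw [smul_eq_mul]
    apply Nat.mul_le_mul_right
    rw [card_powersetCard]
    apply Nat.choose_le_choose
    rw [← hW.2]
    exact cnt_pw W
  have h4 : (∑ W ∈ powersetCard w (univ : Finset (Fin N ⊕ Fin N)),
      ∑ F ∈ powersetCard (w + k) (pw W), ((BReg N n).filter fun E => F ⊆ E).card) * N ^ (w + k) ≤
        (2 * N).choose w * ((w ^ 2).choose (w + k) * ((2 * n) ^ (w + k) * (BReg N n).card)) := by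
    rw [sum_mul]
    refine (sum_le_card_nsmul _ _ _ h2).trans ?_
    rw [smul_eq_mul]
    apply Nat.mul_le_mul_right
    rw [card_powersetCard]
    apply le_of_eq
    congr 1
    rw [card_univ, Fintype.card_sum, Fintype.card_fin]
    ring
  have h5 : 0 < N ^ w := by positivity
  apply Nat.le_of_mul_le_mul_left _ h5
  calc _ = (∑ W ∈ powersetCard w (univ : Finset (Fin N ⊕ Fin N)),
      ∑ F ∈ powersetCard (w + k) (pw W), ((BReg N n).filter fun E => F ⊆ E).card) * N ^ (w + k) := by
        rw [pow_add]; ring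
    _ ≤ _ := h4
    _ = ((2 * N).choose w * (w ^ 2).choose (w + k)) * ((2 * n) ^ (w + k) * (BReg N n).card) := by
        ring
    _ ≤ ((18 * N) ^ w * w ^ (2 * k)) * ((2 * n) ^ (w + k) * (BReg N n).card) :=
        Nat.mul_le_mul_right _ (choose_two N w k)
    _ = _ := by
        have h6 : (36 * n) ^ w = 18 ^ w * (2 * n) ^ w := by
          rw [← mul_pow]; congr 1; ring
        rw [h6, pow_add, mul_pow 18 N w]; ring

end Pool.Agent.Lib.MP_c5b475_co.AA.U
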