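import Pool.Agent.Lib.MP_c5b475_co.AA.D3
import Pool.Agent.Lib.MP_c5b475_co.AA.D4
import Pool.Agent.Lib.MP_c5b475_co.AA.HA
import Pool.Agent.Lib.MP_c5b475_co.AA.HB
import Pool.Agent.Lib.MP_c5b475_co.AA.HC

set_option autoImplicit false

/-!
# Almost all hosts, uniform version: definitions
-/

namespace Pool.Agent.Lib.MP_c5b475_co.AA.U

open Finset

/-- Sets of at most `M` vertices of the first class expand by a factor three. -/
def SmE {N : ℕ} (E : Finset (Fin N × Fin N)) (M : ℕ) : Prop :=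
  ∀ S : Finset (Fin N), S.card ≤ M → 3 * S.card ≤ (nbr E S).card

/-- `G` is decomposed by every tree with `n` edges and diameter at most `d`. -/
def GoodD (n d N : ℕ) (G : SimpleGraph (Fin N ⊕ Fin N)) : Prop :=
  ∀ T : SimpleGraph (Fin (n + 1)), T.IsTree → (∀ u v, T.dist u v ≤ d) → Decomposes T G

end Pool.Agent.Lib.MP_c5b475_co.AA.U
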