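import Pool.Agent.Lib.MP_c5b475_co.AA.U.Cnt

set_option autoImplicit false

/-!
# Fc (30 min): few short cycles, explicit

As `p_fc` in AA/PFC.lean (there: `pfc_one`, `h3`, `h4`; copy) with `cnt`, `k = 0`:
`∑_{w ≤ d} (36 n) ^ w ≤ 2 (36 n) ^ d`.
-/

namespace Pool.Agent.Lib.MP_c5b475_co.AA.U

open Finset

private theorem Fc_one {N n : ℕ} (E : Finset (Fin N × Fin N)) :
    (cyc E n).card ≤ ∑ w ∈ range (n + 1), ∑ W ∈ powersetCard w (univ : Finset (Fin N ⊕ Fin N)),
      ∑ F ∈ powersetCard w (pw W), if F ⊆ E then 1 else 0 := by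
  classical
  have h1 : cyc E n ⊆ (range (n + 1)).biUnion fun w =>
      (powersetCard w (univ : Finset (Fin N ⊕ Fin N))).filter fun W =>
        ∃ F ∈ powersetCard w (pw W), F ⊆ E := by
    intro W hW
    simp only [cyc, mem_filter, mem_univ, true_and] at hW
    obtain ⟨-, hW1, hW2⟩ := hW
    rw [eW_eq] at hW2
    obtain ⟨F, hF, hFc⟩ := exists_subset_card_eq hW2
    simp only [mem_biUnion, mem_filter]
    refine ⟨W.card, by rw [mem_range]; omega, by simp [mem_powersetCard], F, ?_, ?_⟩
    · rw [mem_powersetCard]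
      exact ⟨hF.trans inter_subset_right, hFc⟩
    · exact hF.trans inter_subset_left
  refine (card_le_card h1).trans (card_biUnion_le.trans ?_)
  apply sum_le_sum
  intro w _
  rw [card_filter]
  apply sum_le_sum
  intro W _
  split_ifs with h
  · obtain ⟨F, hF, hFE⟩ := h
    calc 1 = (if F ⊆ E then 1 else 0) := by rw [if_pos hFE]
      _ ≤ _ := single_le_sum (f := fun F => if F ⊆ E then 1 else 0) (fun _ _ => Nat.zero_le _) hF
  · exact Nat.zero_le _

private theorem Fc_geom (a d : ℕ) (ha : 2 ≤ a) : ∑ w ∈ range (d + 1), a ^ w ≤ 2 * a ^ d := by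
  induction d with
  | zero => simp
  | succ d ih =>
    rw [sum_range_succ, pow_succ]
    have : 0 < a ^ d := pow_pos (by omega) d
    nlinarith

theorem p_fc (n d N K : ℕ) (hn : 1 ≤ n) (h1 : 1 ≤ N) (hN : 2 * (2 * n ^ 2 + d) ≤ n * N) :
    (K + 1) * ((BReg N n).filter fun E => K < (cyc E d).card).card ≤
      2 * (36 * n) ^ d * (BReg N n).card := by
  classical
  have h3 : ∑ E ∈ BReg N n, (cyc E d).card ≤ 2 * (36 * n) ^ d * (BReg N n).card := by
    calc ∑ E ∈ BReg N n, (cyc E d).card
        ≤ ∑ E ∈ BReg N n, ∑ w ∈ range (d + 1),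
          ∑ W ∈ powersetCard w (univ : Finset (Fin N ⊕ Fin N)),
            ∑ F ∈ powersetCard w (pw W), (if F ⊆ E then 1 else 0) :=
          sum_le_sum fun E _ => Fc_one E
      _ = ∑ w ∈ range (d + 1), ∑ W ∈ powersetCard w (univ : Finset (Fin N ⊕ Fin N)),
            ∑ F ∈ powersetCard w (pw W), ((BReg N n).filter fun E => F ⊆ E).card := by
          rw [sum_comm]
          refine sum_congr rfl fun w _ => ?_
          rw [sum_comm]
          refine sum_congr rfl fun W _ => ?_
          rw [sum_comm]
          refine sum_congr rfl fun F _ => ?_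
          rw [card_filter]
      _ ≤ ∑ w ∈ range (d + 1), (36 * n) ^ w * (BReg N n).card := by
          apply sum_le_sum
          intro w hw
          have hw' : w ≤ d := by rw [mem_range] at hw; omega
          have := cnt n w 0 N hn h1 (by
            refine le_trans ?_ hN
            omega)
          simpa using this
      _ = (∑ w ∈ range (d + 1), (36 * n) ^ w) * (BReg N n).card := by rw [← sum_mul]
      _ ≤ 2 * (36 * n) ^ d * (BReg N n).card :=
          Nat.mul_le_mul_right _ (Fc_geom (36 * n) d (by omega))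
  refine le_trans ?_ h3
  calc (K + 1) * ((BReg N n).filter fun E => K < (cyc E d).card).card
      = ((BReg N n).filter fun E => K < (cyc E d).card).card • (K + 1) := by
        rw [smul_eq_mul, mul_comm]
    _ ≤ ∑ E ∈ (BReg N n).filter fun E => K < (cyc E d).card, (cyc E d).card := by
        apply card_nsmul_le_sum
        intro E hE
        rw [mem_filter] at hE
        exact hE.2
    _ ≤ _ := sum_le_sum_of_subset (filter_subset _ _)

end Pool.Agent.Lib.MP_c5b475_co.AA.U
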