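import Pool.Agent.Lib.MP_c5b475_co.AA.U.Def

set_option autoImplicit false

/-!
# Hl (25 min): perfect matching outside a sparse set

As in AA/D2.lean (copy `D2_half`, `D2_hall`, `hall_part`); only the small sets are treated differently:
for `|S| ≤ M`: `|nbr E S| ≥ 3 |S|` (`SmE`) and `|nbr E S ∩ B1| ≤ 2 |S|` (see `h1` in `small`, AA/D2a.lean).
-/

namespace Pool.Agent.Lib.MP_c5b475_co.AA.U

open Finset

variable {N : ℕ}

/-- Sets of at most half of the vertices. -/
theorem Hl_half {M q : ℕ} {E : Finset (Fin N × Fin N)}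
    (hs' : SmE E M) (hex : Expd E q M)
    (B1 : Finset (Fin N)) (hq : B1.card ≤ q)
    (hA : ∀ a, ((B1.filter fun b => (a, b) ∈ E)).card ≤ 2) (S : Finset (Fin N))
    (hS : 2 * S.card ≤ N) : S.card ≤ (nbr E S \ B1).card := by
  by_contra hlt
  push Not at hlt
  have h1 : (nbr E S).card ≤ (nbr E S \ B1).card + B1.card := by
    have h0 : nbr E S ⊆ (nbr E S \ B1) ∪ B1 := by
      rw [sdiff_union_self_eq_union]
      exact subset_union_left
    exact (card_le_card h0).trans (card_union_le _ _)
  by_cases hs : M < S.card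
  · have := hex S hs hS
    omega
  · push Not at hs
    have h2 := hs' S hs
    have h3 : (nbr E S ∩ B1).card ≤ 2 * S.card := by
      have hsub : nbr E S ∩ B1 ⊆ S.biUnion (fun a => B1.filter fun b => (a, b) ∈ E) := by
        intro b hb
        rw [mem_inter] at hb
        obtain ⟨hb1, hb2⟩ := hb
        unfold nbr at hb1
        rw [mem_filter] at hb1
        obtain ⟨_, a, ha, hab⟩ := hb1
        rw [mem_biUnion]
        exact ⟨a, ha, by rw [mem_filter]; exact ⟨hb2, hab⟩⟩
      refine (card_le_card hsub).trans ((card_biUnion_le).trans ?_)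
      refine (sum_le_sum (g := fun _ => 2) (fun a _ => hA a)).trans ?_
      rw [sum_const, smul_eq_mul, mul_comm]
    have h4 : (nbr E S).card = (nbr E S \ B1).card + (nbr E S ∩ B1).card := by
      rw [card_sdiff_add_card_inter]
    omega

theorem Hl_hall {n M q : ℕ} (hn : 1 ≤ n) {E : Finset (Fin N × Fin N)} (hE : E ∈ BReg N n)
    (hs : SmE E M) (hs' : SmE (tr E) M) (hex : Expd E q M) (hex' : Expd (tr E) q M)
    (A1 B1 : Finset (Fin N)) (hAB : A1.card = B1.card) (hq : B1.card ≤ q)
    (hA : ∀ a, ((B1.filter fun b => (a, b) ∈ E)).card ≤ 2)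
    (hB : ∀ b, ((A1.filter fun a => (a, b) ∈ E)).card ≤ 2) (S : Finset (Fin N))
    (hS : Disjoint S A1) : S.card ≤ (nbr E S \ B1).card := by
  by_cases h2 : 2 * S.card ≤ N
  · exact Hl_half hs hex B1 hq hA S h2
  · push Not at h2
    by_contra hlt
    push Not at hlt
    obtain ⟨Q, hQ⟩ : ∃ Q, Q = (B1 ∪ nbr E S)ᶜ := ⟨_, rfl⟩
    have hnQ : nbr (tr E) Q ⊆ Sᶜ := by
      intro a ha
      unfold nbr at ha
      rw [mem_filter] at ha
      obtain ⟨_, b, hb, hab⟩ := ha
      rw [mem_tr] at hab
      rw [mem_compl]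
      intro haS
      rw [hQ, mem_compl, mem_union, not_or] at hb
      apply hb.2
      unfold nbr
      rw [mem_filter]
      exact ⟨mem_univ _, a, haS, hab⟩
    have e1 : (B1 ∪ nbr E S).card + Q.card = N := by
      rw [hQ, card_add_card_compl, Fintype.card_fin]
    have e2 : (B1 ∪ nbr E S).card = B1.card + (nbr E S \ B1).card := by
      rw [← card_union_of_disjoint disjoint_sdiff, union_sdiff_self_eq_union]
    have e3 : (S ∪ A1).card = S.card + A1.card := card_union_of_disjoint hS
    have e4 : (S ∪ A1).card + (S ∪ A1)ᶜ.card = N := by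
      rw [card_add_card_compl, Fintype.card_fin]
    have e5 : (nbr (tr E) Q \ A1).card ≤ (S ∪ A1)ᶜ.card := by
      apply card_le_card
      intro a ha
      rw [mem_sdiff] at ha
      rw [mem_compl, mem_union, not_or]
      exact ⟨mem_compl.mp (hnQ ha.1), ha.2⟩
    have e6 : S.card + Sᶜ.card = N := by
      rw [card_add_card_compl, Fintype.card_fin]
    have e7 : (nbr (tr E) Q).card ≤ Sᶜ.card := card_le_card hnQ
    have htr : tr E ∈ BReg N n := tr_mem.mpr hE
    have e8 : Q.card ≤ (nbr (tr E) Q).card := card_nbr_ge hn htr Q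
    have e9 : Q.card ≤ (nbr (tr E) Q \ A1).card :=
      Hl_half hs' hex' A1 (by omega) (by
        intro b
        have := hB b
        refine le_trans (le_of_eq ?_) this
        congr 1
        ext a
        rw [mem_filter, mem_filter, mem_tr]) Q (by omega)
    omega

theorem hall_part {n M q : ℕ} (hn : 1 ≤ n) {E : Finset (Fin N × Fin N)} (hE : E ∈ BReg N n)
    (hs : SmE E M) (hs' : SmE (tr E) M) (hex : Expd E q M) (hex' : Expd (tr E) q M)
    (A1 B1 : Finset (Fin N)) (hAB : A1.card = B1.card) (hq : B1.card ≤ q)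
    (hA : ∀ a, ((B1.filter fun b => (a, b) ∈ E)).card ≤ 2)
    (hB : ∀ b, ((A1.filter fun a => (a, b) ∈ E)).card ≤ 2) :
    ∃ f : Fin N → Fin N, (∀ a, a ∉ A1 → f a ∉ B1 ∧ (a, f a) ∈ E) ∧
      ∀ a a', a ∉ A1 → a' ∉ A1 → f a = f a' → a = a' := by
  classical
  have hall := (Finset.all_card_le_biUnion_card_iff_exists_injective
    (ι := {a : Fin N // a ∉ A1}) (fun a => univ.filter fun b => b ∉ B1 ∧ (a.1, b) ∈ E)).mp (by
      intro S
      have h1 := Hl_hall hn hE hs hs' hex hex' A1 B1 hAB hq hA hB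
        (S.map (Function.Embedding.subtype _)) (by
          rw [Finset.disjoint_left]
          intro a ha
          rw [mem_map] at ha
          obtain ⟨x, _, rfl⟩ := ha
          exact x.2)
      rw [card_map] at h1
      refine h1.trans (card_le_card ?_)
      intro b hb
      rw [mem_sdiff] at hb
      obtain ⟨hb1, hb2⟩ := hb
      unfold nbr at hb1
      rw [mem_filter] at hb1
      obtain ⟨_, a, ha, hab⟩ := hb1
      rw [mem_map] at ha
      obtain ⟨x, hx, rfl⟩ := ha
      rw [mem_biUnion]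
      refine ⟨x, hx, ?_⟩
      rw [mem_filter]
      exact ⟨mem_univ _, hb2, hab⟩)
  obtain ⟨g, hg1, hg2⟩ := hall
  refine ⟨fun a => if h : a ∈ A1 then a else g ⟨a, h⟩, ?_, ?_⟩
  · intro a ha
    have := hg2 ⟨a, ha⟩
    rw [mem_filter] at this
    simp only [dif_neg ha]
    exact this.2
  · intro a a' ha ha' h
    simp only [dif_neg ha, dif_neg ha'] at h
    have := hg1 h
    exact Subtype.mk.inj this

end Pool.Agent.Lib.MP_c5b475_co.AA.U
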