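import Pool.Agent.Lib.MP_c5b475_co.AA.U.Def

set_option autoImplicit false

/-!
# Hs (20 min): diameter at most four

As `small_host` of AA/HC.lean (the private `hc_colorable`, `hc_regular` must be copied).
`card_tr`: as in `p_ex_tr` (AA/ExT.lean).
-/

namespace Pool.Agent.Lib.MP_c5b475_co.AA.U

open Finset

private theorem hs_colorable {N : ℕ} (E : Finset (Fin N × Fin N)) : (gr E).Colorable 2 := by
  refine ⟨SimpleGraph.Coloring.mk (fun v => if v.isLeft then 0 else 1) ?_⟩
  rintro u v ⟨a, b, _, ⟨h1, h2⟩ | ⟨h1, h2⟩⟩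
  · subst h1 h2; simp
  · subst h1 h2; simp

private theorem hs_regular {N n : ℕ} {E : Finset (Fin N × Fin N)} (hE : E ∈ BReg N n)
    [DecidableRel (gr E).Adj] : (gr E).IsRegularOfDegree n := by
  have hE' : (∀ a, (E.filter fun p => p.1 = a).card = n) ∧
      ∀ b, (E.filter fun p => p.2 = b).card = n := by
    simpa [BReg] using hE
  intro v
  rw [← SimpleGraph.card_neighborFinset_eq_degree]
  rcases v with a | b
  · have h : (gr E).neighborFinset (Sum.inl a) =
        (E.filter fun p => p.1 = a).image fun p => (Sum.inr p.2 : Fin N ⊕ Fin N) := by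
      ext x
      rw [SimpleGraph.mem_neighborFinset, Finset.mem_image]
      constructor
      · rintro ⟨a', b', h, ⟨h1, h2⟩ | ⟨h1, h2⟩⟩
        · have h3 : a = a' := Sum.inl.inj h1
          subst h3
          exact ⟨(a, b'), Finset.mem_filter.2 ⟨h, rfl⟩, h2.symm⟩
        · exact absurd h1 (by simp)
      · rintro ⟨⟨a', b'⟩, h, rfl⟩
        rw [Finset.mem_filter] at h
        obtain ⟨h1, h2⟩ := h
        simp only at h2
        subst h2
        exact ⟨a', b', h1, Or.inl ⟨rfl, rfl⟩⟩
    rw [h, Finset.card_image_of_injOn, hE'.1 a]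
    rintro ⟨a1, b1⟩ h1 ⟨a2, b2⟩ h2 h3
    simp only [Finset.coe_filter, Set.mem_ofPred_eq] at h1 h2
    simp only [Sum.inr.injEq] at h3
    rw [h3, h1.2, h2.2]
  · have h : (gr E).neighborFinset (Sum.inr b) =
        (E.filter fun p => p.2 = b).image fun p => (Sum.inl p.1 : Fin N ⊕ Fin N) := by
      ext x
      rw [SimpleGraph.mem_neighborFinset, Finset.mem_image]
      constructor
      · rintro ⟨a', b', h, ⟨h1, h2⟩ | ⟨h1, h2⟩⟩
        · exact absurd h1 (by simp)
        · have h3 : b = b' := Sum.inr.inj h1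
          subst h3
          exact ⟨(a', b), Finset.mem_filter.2 ⟨h, rfl⟩, h2.symm⟩
      · rintro ⟨⟨a', b'⟩, h, rfl⟩
        rw [Finset.mem_filter] at h
        obtain ⟨h1, h2⟩ := h
        simp only at h2
        subst h2
        exact ⟨a', b', h1, Or.inr ⟨rfl, rfl⟩⟩
    rw [h, Finset.card_image_of_injOn, hE'.2 b]
    rintro ⟨a1, b1⟩ h1 ⟨a2, b2⟩ h2 h3
    simp only [Finset.coe_filter, Set.mem_ofPred_eq] at h1 h2
    simp only [Sum.inl.injEq] at h3
    rw [h3, h1.2, h2.2]

theorem small_host {N n : ℕ} {E : Finset (Fin N × Fin N)} (hE : E ∈ BReg N n)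
    (T : SimpleGraph (Fin (n + 1))) (hT : T.IsTree) (hd : ∀ u v, T.dist u v ≤ 4) :
    Decomposes T (gr E) := by
  classical
  exact main n T hT (Fin N ⊕ Fin N) (gr E) (hs_regular hE) (hs_colorable E) (Or.inl hd)

open scoped Classical in
theorem card_tr {N n : ℕ} (P : Finset (Fin N × Fin N) → Prop) :
    ((BReg N n).filter fun E => P (tr E)).card ≤ ((BReg N n).filter fun E => P E).card := by
  apply Finset.card_le_card_of_injOn tr
  · intro E hE
    rw [Finset.mem_coe, Finset.mem_filter] at hE ⊢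
    exact ⟨tr_mem.mpr hE.1, hE.2⟩
  · intro E _ E' _ hEE
    have h3 := congrArg tr hEE
    rwa [tr_tr, tr_tr] at h3

end Pool.Agent.Lib.MP_c5b475_co.AA.U
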