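import Mathlib

set_option autoImplicit false

/-!
# NL (45 min, only Mathlib): a numerical estimate

Let `r = Nat.sqrt N`, `t = Nat.sqrt r + 1`, so `r < t ^ 2`, `N < (r + 1) ^ 2 ≤ t ^ 4 ≤ 2 ^ (4 t)` (`Nat.lt_two_pow_self`),
and `(t - 1) ^ 4 ≤ N`.  The logarithm (base 2) of the left side is at most
`2 (2 r + 2 n) n + 4 t (4 n r + 2 r + 2) ≤ 8 r n + 20 t n r ≤ 28 t n r ≤ 28 n t ^ 3` (`n ≤ r`, `2 r + 2 ≤ n r`), that of the
right side `(N / 2 ^ 23) (n - 2) ≥ (N / 2 ^ 23) (n / 2)`; and `56 t ^ 3 + 1 ≤ N / 2 ^ 23` for large `N`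
(`N ≥ (t - 1) ^ 4 ≥ t ^ 4 / 16`, so `t ≥ 2 ^ 34` is enough; `t` tends to infinity with `N`).
-/

namespace Pool.Agent.Lib.MP_c5b475_co.AA.U

theorem num_large : ∃ N0, ∀ N n : ℕ, N0 ≤ N → 5 ≤ n → n ≤ Nat.sqrt N →
    4 ^ ((2 * Nat.sqrt N + 2 * n) * n) * N ^ (2 * n * (2 * Nat.sqrt N) + 2 * Nat.sqrt N + 2) ≤
      2 ^ (N / 2 ^ 23 * (n - 2)) := by
  refine ⟨2 ^ 132, fun N n hN hn hnN => ?_⟩
  set r := Nat.sqrt N with hr
  set t := Nat.sqrt r + 1 with ht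
  have hr1 : 2 ^ 66 ≤ r := by
    rw [hr, Nat.le_sqrt]
    refine le_trans (le_of_eq ?_) hN
    norm_num
  have ht1 : 2 ^ 33 ≤ Nat.sqrt r := by
    rw [Nat.le_sqrt]
    refine le_trans (le_of_eq ?_) hr1
    norm_num
  have h1 : r < t * t := by
    have := Nat.lt_succ_sqrt r
    exact this
  have h2 : N < (r + 1) * (r + 1) := Nat.lt_succ_sqrt N
  have h3 : (t - 1) * (t - 1) ≤ r := by
    have : t - 1 = Nat.sqrt r := by omega
    rw [this]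
    exact Nat.sqrt_le r
  have h4 : r * r ≤ N := Nat.sqrt_le N
  have h5 : N ≤ 2 ^ (4 * t) := by
    have h6 : N ≤ (t * t) * (t * t) := h2.le.trans (Nat.mul_le_mul h1 h1)
    have h7 : t ≤ 2 ^ t := Nat.lt_two_pow_self.le
    calc N ≤ (t * t) * (t * t) := h6
      _ = t ^ 4 := by ring
      _ ≤ (2 ^ t) ^ 4 := Nat.pow_le_pow_left h7 4
      _ = 2 ^ (4 * t) := by rw [← pow_mul, mul_comm]
  have h8 : 2 * (2 * r + 2 * n) * n + 4 * t * (2 * n * (2 * r) + 2 * r + 2) ≤ 28 * n * t ^ 3 := by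
    have g1 : 2 * r + 2 ≤ n * r := by nlinarith
    have g2 : 2 * (2 * r + 2 * n) * n ≤ 8 * (r * n) := by nlinarith
    have g3 : 2 * n * (2 * r) + 2 * r + 2 ≤ 5 * (n * r) := by nlinarith
    have g4 : 1 ≤ t := by omega
    have g5 : 2 * (2 * r + 2 * n) * n + 4 * t * (2 * n * (2 * r) + 2 * r + 2) ≤
        28 * (t * (n * r)) := by
      have g6 : 4 * t * (2 * n * (2 * r) + 2 * r + 2) ≤ 4 * t * (5 * (n * r)) :=
        Nat.mul_le_mul_left _ g3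
      have g7 : r * n ≤ t * (n * r) := by
        calc r * n = 1 * (n * r) := by ring
          _ ≤ t * (n * r) := Nat.mul_le_mul_right _ g4
      calc 2 * (2 * r + 2 * n) * n + 4 * t * (2 * n * (2 * r) + 2 * r + 2)
          ≤ 8 * (r * n) + 4 * t * (5 * (n * r)) := Nat.add_le_add g2 g6
        _ ≤ 8 * (t * (n * r)) + 4 * t * (5 * (n * r)) :=
            Nat.add_le_add_right (Nat.mul_le_mul_left _ g7) _
        _ = _ := by ring
    refine g5.trans ?_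
    calc 28 * (t * (n * r)) ≤ 28 * (t * (n * (t * t))) :=
          Nat.mul_le_mul_left _ (Nat.mul_le_mul_left _ (Nat.mul_le_mul_left _ h1.le))
      _ = 28 * n * t ^ 3 := by ring
  have h9 : 56 * t ^ 3 ≤ N / 2 ^ 23 := by
    rw [Nat.le_div_iff_mul_le (by norm_num)]
    have g1 : (t - 1) * (t - 1) * ((t - 1) * (t - 1)) ≤ N :=
      (Nat.mul_le_mul h3 h3).trans h4
    refine le_trans ?_ g1
    obtain ⟨u, hu⟩ : ∃ u, t = u + 1 := ⟨t - 1, by omega⟩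
    have hu1 : 2 ^ 33 ≤ u := by omega
    rw [hu, Nat.add_sub_cancel]
    have g2 : u + 1 ≤ 2 * u := by omega
    calc 56 * (u + 1) ^ 3 * 2 ^ 23 ≤ 56 * (2 * u) ^ 3 * 2 ^ 23 :=
          Nat.mul_le_mul_right _ (Nat.mul_le_mul_left _ (Nat.pow_le_pow_left g2 3))
      _ = (56 * 8 * 2 ^ 23) * (u * u * u) := by ring
      _ ≤ u * (u * u * u) := Nat.mul_le_mul_right _ (le_trans (by norm_num) hu1)
      _ = u * u * (u * u) := by ring
  have h10 : 28 * n * t ^ 3 ≤ N / 2 ^ 23 * (n - 2) := by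
    have g1 : n ≤ 2 * (n - 2) := by omega
    calc 28 * n * t ^ 3 ≤ 28 * (2 * (n - 2)) * t ^ 3 :=
          Nat.mul_le_mul_right _ (Nat.mul_le_mul_left _ g1)
      _ = 56 * t ^ 3 * (n - 2) := by ring
      _ ≤ _ := Nat.mul_le_mul_right _ h9
  calc 4 ^ ((2 * r + 2 * n) * n) * N ^ (2 * n * (2 * r) + 2 * r + 2)
      ≤ 4 ^ ((2 * r + 2 * n) * n) * (2 ^ (4 * t)) ^ (2 * n * (2 * r) + 2 * r + 2) :=
        Nat.mul_le_mul_left _ (Nat.pow_le_pow_left h5 _)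
    _ = 2 ^ (2 * (2 * r + 2 * n) * n + 4 * t * (2 * n * (2 * r) + 2 * r + 2)) := by
        rw [show (4 : ℕ) = 2 ^ 2 by norm_num, ← pow_mul, ← pow_mul, ← pow_add]
        congr 1
        ring
    _ ≤ 2 ^ (N / 2 ^ 23 * (n - 2)) := Nat.pow_le_pow_right (by norm_num) (h8.trans h10)

end Pool.Agent.Lib.MP_c5b475_co.AA.U
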