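import Pool.Agent.Lib.MP_c5b475_co.AA.Ex3a
import Pool.Agent.Lib.MP_c5b475_co.AA.Ex3b

set_option autoImplicit false

/-!
# TL (40 min): one term, large sets (in ℕ)

`c := q + 2 n`, `X := C(N, s)`, `n N - n q - 2 n ^ 2 = n (N - c)`.  As in AA/Ex3.lean (`f1`, `f2`, `f3`):
`X ^ n ≤ 4 ^ (c n) C(n (N - c), n s)` (`choose_shift`, `choose_mul_ge`);
`C(N, s + q) ≤ C(N, s + q) s ^ q ≤ X N ^ q` (`choose_up`);
`C(n (s + q), n s) = C(n (s + q), n q) ≤ (n (s + q)) ^ (n q) ≤ (N ^ 2) ^ (n q)` as `s + q ≤ N`;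
`2 ^ s ≤ X` (`(2 s) ^ s ≤ N ^ s ≤ X s ^ s`, `pow_le_choose_mul`), so `2 ^ (s (n - 2)) ≤ X ^ (n - 2)` and
`X ^ 2 X ^ (n - 2) = X ^ n`.
-/

namespace Pool.Agent.Lib.MP_c5b475_co.AA.U

theorem term_large (n q N s : ℕ) (hn : 2 ≤ n) (hnN : n ≤ N) (hN : 3 * (q + 2 * n) ≤ N)
    (hs : 1 ≤ s) (hsN : 2 * s ≤ N) :
    N.choose s * N.choose (s + q) * (n * (s + q)).choose (n * s) * 2 ^ (s * (n - 2)) ≤
      4 ^ ((q + 2 * n) * n) * N ^ (2 * n * q + q) *
        (n * N - n * q - 2 * n ^ 2).choose (n * s) := by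
  have eD : n * N - n * q - 2 * n ^ 2 = n * (N - (q + 2 * n)) := by
    rw [Nat.mul_sub, Nat.sub_sub]
    congr 1
    ring
  rw [eD]
  set D := (n * (N - (q + 2 * n))).choose (n * s) with hD
  set X := N.choose s with hX
  have f1 : X ^ n ≤ 4 ^ ((q + 2 * n) * n) * D := by
    have h1 := choose_shift (q + 2 * n) N s hsN (by omega)
    have h2 := choose_mul_ge n (N - (q + 2 * n)) s
    calc X ^ n ≤ (4 ^ (q + 2 * n) * (N - (q + 2 * n)).choose s) ^ n := Nat.pow_le_pow_left h1 n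
      _ = 4 ^ ((q + 2 * n) * n) * (N - (q + 2 * n)).choose s ^ n := by rw [mul_pow, ← pow_mul]
      _ ≤ _ := Nat.mul_le_mul_left _ h2
  have f2 : N.choose (s + q) ≤ X * N ^ q := by
    have h1 : 1 ≤ s ^ q := Nat.one_le_pow _ _ (by omega)
    calc N.choose (s + q) = N.choose (s + q) * 1 := (mul_one _).symm
      _ ≤ N.choose (s + q) * s ^ q := Nat.mul_le_mul_left _ h1
      _ ≤ X * N ^ q := choose_up N s q
  have f3 : (n * (s + q)).choose (n * s) ≤ N ^ (2 * n * q) := by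
    have h1 : (n * (s + q)).choose (n * s) = (n * (s + q)).choose (n * q) :=
      Nat.choose_symm_of_eq_add (by ring)
    rw [h1]
    have h2 : n * (s + q) ≤ N ^ 2 := by
      rw [pow_two]
      exact Nat.mul_le_mul hnN (by omega)
    calc (n * (s + q)).choose (n * q) ≤ (n * (s + q)) ^ (n * q) := Nat.choose_le_pow _ _
      _ ≤ (N ^ 2) ^ (n * q) := Nat.pow_le_pow_left h2 _
      _ = N ^ (2 * n * q) := by rw [← pow_mul, mul_assoc]
  have f4 : 2 ^ s ≤ X := by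
    have h1 := pow_le_choose_mul N s (by omega)
    have h2 : 2 ^ s * s ^ s ≤ X * s ^ s := by
      calc 2 ^ s * s ^ s = (2 * s) ^ s := (mul_pow _ _ _).symm
        _ ≤ N ^ s := Nat.pow_le_pow_left hsN s
        _ ≤ _ := h1
    exact Nat.le_of_mul_le_mul_right h2 (pow_pos (by omega) s)
  have f5 : 2 ^ (s * (n - 2)) ≤ X ^ (n - 2) := by
    rw [pow_mul]
    exact Nat.pow_le_pow_left f4 _
  have f6 : X ^ 2 * X ^ (n - 2) = X ^ n := by
    rw [← pow_add]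
    congr 1
    omega
  calc X * N.choose (s + q) * (n * (s + q)).choose (n * s) * 2 ^ (s * (n - 2))
      ≤ X * (X * N ^ q) * N ^ (2 * n * q) * X ^ (n - 2) :=
        Nat.mul_le_mul (Nat.mul_le_mul (Nat.mul_le_mul_left _ f2) f3) f5
    _ = N ^ (2 * n * q + q) * (X ^ 2 * X ^ (n - 2)) := by rw [pow_add]; ring
    _ = N ^ (2 * n * q + q) * X ^ n := by rw [f6]
    _ ≤ N ^ (2 * n * q + q) * (4 ^ ((q + 2 * n) * n) * D) := Nat.mul_le_mul_left _ f1
    _ = _ := by ring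

end Pool.Agent.Lib.MP_c5b475_co.AA.U
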