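import Pool.Agent.Lib.MP_c5b475_co.AA.U.Un
import Pool.Agent.Lib.MP_c5b475_co.AA.U.TL
import Pool.Agent.Lib.MP_c5b475_co.AA.U.NL

set_option autoImplicit false

/-!
# Lg (35 min): large sets expand

`union_bound` with `q s = 2 Nat.sqrt N`, `I = (range (N + 1)).filter (fun s => N / 2 ^ 23 < s ∧ 2 * s ≤ N)`.
Every term is at most `4^.. N^(2nq+q) / 2 ^ (s (n - 2)) ≤ 1 / N ^ 2` (`term_large`, `num_large`, `s ≥ N / 2 ^ 23`),
there are at most `N` terms (`0 ∉ I`, `I ⊆ Icc 1 N`).  (`h2` of `union_bound`: `s + q + 2 n ≤ N`.)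
-/

namespace Pool.Agent.Lib.MP_c5b475_co.AA.U

open Finset

theorem Lg_term (n q N s s0 : ℕ) (hn : 2 ≤ n) (hnN : n ≤ N) (hN : 3 * (q + 2 * n) ≤ N)
    (hs0 : s0 < s) (hsN : 2 * s ≤ N)
    (hnum : 4 ^ ((q + 2 * n) * n) * N ^ (2 * n * q + q + 2) ≤ 2 ^ (s0 * (n - 2)))
    (hD : n * s ≤ n * N - n * q - 2 * n ^ 2) :
    (N.choose s : ℝ) * N.choose (s + q) * (n * (s + q)).choose (n * s) /
      (n * N - n * q - 2 * n ^ 2).choose (n * s) ≤ 1 / (N : ℝ) ^ 2 := by
  have h1 := term_large n q N s hn hnN hN (by omega) hsN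
  have hD0 : 0 < (n * N - n * q - 2 * n ^ 2).choose (n * s) := Nat.choose_pos hD
  set D := (n * N - n * q - 2 * n ^ 2).choose (n * s) with hDdef
  have h2 : 2 ^ (s0 * (n - 2)) ≤ 2 ^ (s * (n - 2)) :=
    Nat.pow_le_pow_right (by norm_num) (Nat.mul_le_mul_right _ hs0.le)
  have h3 : N.choose s * N.choose (s + q) * (n * (s + q)).choose (n * s) * N ^ 2 ≤ D := by
    have hP : 0 < 2 ^ (s * (n - 2)) := Nat.pow_pos (by norm_num)
    refine Nat.le_of_mul_le_mul_right ?_ hP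
    calc N.choose s * N.choose (s + q) * (n * (s + q)).choose (n * s) * N ^ 2 * 2 ^ (s * (n - 2))
        = (N.choose s * N.choose (s + q) * (n * (s + q)).choose (n * s) * 2 ^ (s * (n - 2))) *
            N ^ 2 := by ring
      _ ≤ (4 ^ ((q + 2 * n) * n) * N ^ (2 * n * q + q) * D) * N ^ 2 := Nat.mul_le_mul_right _ h1
      _ = (4 ^ ((q + 2 * n) * n) * N ^ (2 * n * q + q + 2)) * D := by
          rw [pow_add N (2 * n * q + q) 2]; ring
      _ ≤ 2 ^ (s * (n - 2)) * D := Nat.mul_le_mul_right _ (hnum.trans h2)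
      _ = D * 2 ^ (s * (n - 2)) := mul_comm _ _
  have hN0 : (0 : ℝ) < (N : ℝ) ^ 2 := by
    have : 0 < N := by omega
    positivity
  have hDR : (0 : ℝ) < D := by exact_mod_cast hD0
  rw [div_le_div_iff₀ hDR hN0, one_mul]
  exact_mod_cast h3

open scoped Classical in
theorem p_large : ∃ N0, ∀ N n : ℕ, N0 ≤ N → 5 ≤ n → n ≤ Nat.sqrt N →
    (((BReg N n).filter fun E => ¬ Expd E (2 * Nat.sqrt N) (N / 2 ^ 23)).card : ℝ) * N ≤
      (BReg N n).card := by
  obtain ⟨N1, hN1⟩ := num_large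
  refine ⟨N1 + 144, fun N n hN hn hnr => ?_⟩
  have hr2 : Nat.sqrt N * Nat.sqrt N ≤ N := Nat.sqrt_le N
  have hr12 : 12 ≤ Nat.sqrt N := by
    rw [Nat.le_sqrt]
    omega
  have hnum := hN1 N n (by omega) hn hnr
  set r := Nat.sqrt N with hr
  have h12 : 12 * r ≤ N := by nlinarith
  have hnN : n ≤ N := by nlinarith
  set I := (range (N + 1)).filter (fun s => N / 2 ^ 23 < s ∧ 2 * s ≤ N) with hI
  have e1 : ∀ s ∈ I, s + 2 * r ≤ N := by
    intro s hs
    rw [hI, mem_filter] at hs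
    omega
  have e2 : ∀ s ∈ I, n * s ≤ n * N - n * (2 * r) - 2 * n ^ 2 := by
    intro s hs
    rw [hI, mem_filter] at hs
    have h1 : s + 2 * r + 2 * n ≤ N := by omega
    have h2 : n * (s + 2 * r + 2 * n) ≤ n * N := Nat.mul_le_mul_left n h1
    have h3 : n * (s + 2 * r + 2 * n) = n * s + n * (2 * r) + 2 * n ^ 2 := by ring
    omega
  have hU := union_bound n N (fun _ => 2 * r) I e1 e2
  have hsub : ((BReg N n).filter fun E => ¬ Expd E (2 * r) (N / 2 ^ 23)) ⊆
      (BReg N n).filter fun E => ∃ S : Finset (Fin N), S.card ∈ I ∧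
        (nbr E S).card < S.card + 2 * r := by
    intro E hE
    rw [mem_filter] at hE ⊢
    refine ⟨hE.1, ?_⟩
    have h1 := hE.2
    unfold Expd at h1
    push Not at h1
    obtain ⟨S, hS1, hS2, hS3⟩ := h1
    refine ⟨S, ?_, hS3⟩
    rw [hI, mem_filter, mem_range]
    exact ⟨by omega, hS1, hS2⟩
  have hcard : (((BReg N n).filter fun E => ¬ Expd E (2 * r) (N / 2 ^ 23)).card : ℝ) ≤
      (((BReg N n).filter fun E => ∃ S : Finset (Fin N), S.card ∈ I ∧
        (nbr E S).card < S.card + 2 * r).card : ℝ) := by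
    exact_mod_cast card_le_card hsub
  have hN0 : (0 : ℝ) < N := by
    have : 0 < N := by omega
    exact_mod_cast this
  have hIc : (I.card : ℝ) ≤ N := by
    have h1 : I ⊆ Icc 1 N := by
      intro s hs
      rw [hI, mem_filter, mem_range] at hs
      rw [mem_Icc]
      omega
    have h2 := card_le_card h1
    rw [Nat.card_Icc, Nat.add_sub_cancel] at h2
    exact_mod_cast h2
  have hsum : ∑ s ∈ I, (N.choose s : ℝ) * N.choose (s + 2 * r) * (n * (s + 2 * r)).choose (n * s) /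
      (n * N - n * (2 * r) - 2 * n ^ 2).choose (n * s) ≤ 1 / (N : ℝ) := by
    have h1 : ∀ s ∈ I, (N.choose s : ℝ) * N.choose (s + 2 * r) *
        (n * (s + 2 * r)).choose (n * s) /
          (n * N - n * (2 * r) - 2 * n ^ 2).choose (n * s) ≤ 1 / (N : ℝ) ^ 2 := by
      intro s hs
      have h3 := e2 s hs
      rw [hI, mem_filter] at hs
      exact Lg_term n (2 * r) N s (N / 2 ^ 23) (by omega) hnN (by omega) hs.2.1 hs.2.2 hnum h3
    refine (sum_le_card_nsmul _ _ _ h1).trans ?_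
    rw [nsmul_eq_mul, mul_one_div, div_le_div_iff₀ (by positivity) hN0]
    nlinarith
  have hB : (0 : ℝ) ≤ (BReg N n).card := Nat.cast_nonneg _
  have hfin := hcard.trans (hU.trans (mul_le_mul_of_nonneg_right hsum hB))
  rw [one_div, inv_mul_eq_div, le_div_iff₀ hN0] at hfin
  exact hfin

end Pool.Agent.Lib.MP_c5b475_co.AA.U
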