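import Pool.Agent.Lib.MP_c5b475_co.AA.U.Cnt

set_option autoImplicit false

/-!
# Ls (30 min): locally sparse, explicit

As `p_ls` in AA/PLS.lean: the proof of `h3`, `h4` there gives
`#{¬ LS} N ≤ ∑_{w ≤ L} w ^ 2 (36 n) ^ w (2 n) #BReg ≤ L ^ 2 (2 n) 2 (36 n) ^ L #BReg` (geometric sum:
`∑_{w ≤ L} x ^ w ≤ 2 x ^ L` for `x ≥ 2`, by induction, or `Nat.geomSum_le`), and `4 n ≤ 36 n`.
-/

namespace Pool.Agent.Lib.MP_c5b475_co.AA.U

open Finset

private theorem ls_geom (x L : ℕ) (hx : 2 ≤ x) : ∑ w ∈ range (L + 1), x ^ w ≤ 2 * x ^ L := by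
  induction L with
  | zero => simp
  | succ L ih =>
    rw [sum_range_succ]
    have : 2 * x ^ L ≤ x ^ (L + 1) := by
      rw [pow_succ]
      nlinarith [Nat.zero_le (x ^ L)]
    omega

open scoped Classical in
theorem p_ls (n L N : ℕ) (hn : 1 ≤ n) (h1 : 1 ≤ N) (hN : 2 * (2 * n ^ 2 + (L + 1)) ≤ n * N) :
    ((BReg N n).filter fun E => ¬ LS E L).card * N ≤
      L ^ 2 * (36 * n) ^ (L + 1) * (BReg N n).card := by
  have h3 : ((BReg N n).filter fun E => ¬ LS E L) ⊆ (range (L + 1)).biUnion fun w =>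
      (powersetCard w (univ : Finset (Fin N ⊕ Fin N))).biUnion fun W =>
        (powersetCard (w + 1) (pw W)).biUnion fun F => (BReg N n).filter fun E => F ⊆ E := by
    intro E hE
    rw [mem_filter] at hE
    obtain ⟨hE, hLS⟩ := hE
    unfold LS at hLS
    push Not at hLS
    obtain ⟨W, hW, hlt⟩ := hLS
    rw [eW_eq] at hlt
    obtain ⟨F, hF, hFc⟩ := exists_subset_card_eq (show W.card + 1 ≤ (E ∩ pw W).card from hlt)
    simp only [mem_biUnion, mem_filter]
    refine ⟨W.card, by rw [mem_range]; omega, W, by simp [mem_powersetCard], F, ?_, hE, ?_⟩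
    · rw [mem_powersetCard]
      exact ⟨hF.trans inter_subset_right, hFc⟩
    · exact hF.trans inter_subset_left
  calc ((BReg N n).filter fun E => ¬ LS E L).card * N
      ≤ (∑ w ∈ range (L + 1), ∑ W ∈ powersetCard w (univ : Finset (Fin N ⊕ Fin N)),
        ∑ F ∈ powersetCard (w + 1) (pw W), ((BReg N n).filter fun E => F ⊆ E).card) * N := by
        apply Nat.mul_le_mul_right
        refine (card_le_card h3).trans ?_
        refine card_biUnion_le.trans ?_
        apply sum_le_sum
        intro w _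
        refine card_biUnion_le.trans ?_
        apply sum_le_sum
        intro W _
        exact card_biUnion_le
    _ = ∑ w ∈ range (L + 1), (∑ W ∈ powersetCard w (univ : Finset (Fin N ⊕ Fin N)),
        ∑ F ∈ powersetCard (w + 1) (pw W), ((BReg N n).filter fun E => F ⊆ E).card) * N := by
        rw [sum_mul]
    _ ≤ ∑ w ∈ range (L + 1), (L ^ 2 * (2 * n) * (BReg N n).card) * (36 * n) ^ w := by
        apply sum_le_sum
        intro w hw
        rw [mem_range] at hw
        have hwL : w ≤ L := by omega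
        have := cnt n w 1 N hn h1 (by
          refine le_trans ?_ hN
          omega)
        rw [pow_one, pow_one, mul_one] at this
        refine this.trans ?_
        have hw2 : w ^ 2 ≤ L ^ 2 := Nat.pow_le_pow_left hwL 2
        calc w ^ 2 * (36 * n) ^ w * (2 * n) * (BReg N n).card
            = w ^ 2 * ((36 * n) ^ w * (2 * n) * (BReg N n).card) := by ring
          _ ≤ L ^ 2 * ((36 * n) ^ w * (2 * n) * (BReg N n).card) :=
            Nat.mul_le_mul_right _ hw2
          _ = L ^ 2 * (2 * n) * (BReg N n).card * (36 * n) ^ w := by ring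
    _ = (L ^ 2 * (2 * n) * (BReg N n).card) * ∑ w ∈ range (L + 1), (36 * n) ^ w := by
        rw [mul_sum]
    _ ≤ (L ^ 2 * (2 * n) * (BReg N n).card) * (2 * (36 * n) ^ L) :=
        Nat.mul_le_mul_left _ (ls_geom _ _ (by omega))
    _ = L ^ 2 * ((4 * n) * (36 * n) ^ L) * (BReg N n).card := by ring
    _ ≤ L ^ 2 * ((36 * n) * (36 * n) ^ L) * (BReg N n).card := by
        apply Nat.mul_le_mul_right
        apply Nat.mul_le_mul_left
        apply Nat.mul_le_mul_right
        omega
    _ = L ^ 2 * (36 * n) ^ (L + 1) * (BReg N n).card := by ring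

end Pool.Agent.Lib.MP_c5b475_co.AA.U
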