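import Pool.Agent.Lib.MP_c5b475_co.AA.U.Hl

set_option autoImplicit false

/-!
# Pm (20 min): a perfect matching through two edges of every short cycle

Copy `exists_perm` of AA/D3.lean: `mc E d`, `mc_disjoint`, `mc_same`, `mc_same'`, `mc_two`, `exists_mc` hold for
any `n` in place of `d` and `2 d + 1 ≤ L`.
-/

namespace Pool.Agent.Lib.MP_c5b475_co.AA.U

open Finset

variable {N : ℕ}

theorem exists_perm {n d L K M : ℕ} (hn : 1 ≤ n) {E : Finset (Fin N × Fin N)} (hE : E ∈ BReg N n)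
    (hLS : LS E L) (hL : 2 * d + 1 ≤ L) (hK : (cyc E d).card ≤ K)
    (hs : SmE E M) (hs' : SmE (tr E) M) (hex : Expd E (2 * K) M) (hex' : Expd (tr E) (2 * K) M) :
    ∃ σ : Equiv.Perm (Fin N), (∀ a, (a, σ a) ∈ E) ∧ ∀ W ∈ cyc E d, ∃ a₁ a₂, a₁ ≠ a₂ ∧
      Sum.inl a₁ ∈ W ∧ Sum.inr (σ a₁) ∈ W ∧ Sum.inl a₂ ∈ W ∧ Sum.inr (σ a₂) ∈ W := by
  classical
  have hch : ∀ W : {W // W ∈ mc E d}, ∃ a₁ b₁ a₂ b₂ : Fin N,
    a₁ ≠ a₂ ∧ b₁ ≠ b₂ ∧ (a₁, b₁) ∈ E ∧ (a₂, b₂) ∈ E ∧ Sum.inl a₁ ∈ W.1 ∧ Sum.inr b₁ ∈ W.1 ∧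
      Sum.inl a₂ ∈ W.1 ∧ Sum.inr b₂ ∈ W.1 := fun W => mc_two W.2
  choose α₁ β₁ α₂ β₂ hne1 hne2 he1 he2 hα₁ hβ₁ hα₂ hβ₂ using hch
  let al : {W // W ∈ mc E d} × Bool → Fin N := fun i => if i.2 then α₁ i.1 else α₂ i.1
  let be : {W // W ∈ mc E d} × Bool → Fin N := fun i => if i.2 then β₁ i.1 else β₂ i.1
  have al_mem : ∀ i, Sum.inl (al i) ∈ i.1.1 := by
    rintro ⟨W, x⟩
    cases x
    · exact hα₂ W
    · exact hα₁ W
  have be_mem : ∀ i, Sum.inr (be i) ∈ i.1.1 := by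
    rintro ⟨W, x⟩
    cases x
    · exact hβ₂ W
    · exact hβ₁ W
  have e_mem : ∀ i, (al i, be i) ∈ E := by
    rintro ⟨W, x⟩
    cases x
    · exact he2 W
    · exact he1 W
  have same : ∀ (W W' : {W // W ∈ mc E d}) (x : Fin N ⊕ Fin N), x ∈ W.1 → x ∈ W'.1 → W = W' := by
    intro W W' x h1 h2
    by_contra hne
    have := mc_disjoint hLS hL W.2 W'.2 (fun h => hne (Subtype.ext h))
    exact (Finset.disjoint_left.1 this) h1 h2
  have al_inj : Function.Injective al := by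
    rintro ⟨W, x⟩ ⟨W', x'⟩ h
    have hW : W = W' := same W W' (Sum.inl (al (W, x))) (al_mem (W, x)) (by rw [h]; exact al_mem (W', x'))
    subst hW
    cases x <;> cases x'
    · rfl
    · exact absurd h.symm (hne1 W)
    · exact absurd h (hne1 W)
    · rfl
  have be_inj : Function.Injective be := by
    rintro ⟨W, x⟩ ⟨W', x'⟩ h
    have hW : W = W' := same W W' (Sum.inr (be (W, x))) (be_mem (W, x)) (by rw [h]; exact be_mem (W', x'))
    subst hW
    cases x <;> cases x'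
    · rfl
    · exact absurd h.symm (hne2 W)
    · exact absurd h (hne2 W)
    · rfl
  have hmcK : (mc E d).card ≤ K := (card_le_card (filter_subset _ _)).trans hK
  have hcI : Fintype.card ({W // W ∈ mc E d} × Bool) = 2 * (mc E d).card := by
    rw [Fintype.card_prod, Fintype.card_bool, Fintype.card_coe, mul_comm]
  have cA : (univ.image al).card = 2 * (mc E d).card := by
    rw [card_image_of_injective _ al_inj, card_univ, hcI]
  have cB : (univ.image be).card = 2 * (mc E d).card := by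
    rw [card_image_of_injective _ be_inj, card_univ, hcI]
  have hA : ∀ a, (((univ.image be).filter fun b => (a, b) ∈ E)).card ≤ 2 := by
    intro a
    by_cases hemp : ((univ.image be).filter fun b => (a, b) ∈ E) = ∅
    · rw [hemp]; simp
    · obtain ⟨b0, hb0⟩ := nonempty_iff_ne_empty.2 hemp
      rw [mem_filter, mem_image] at hb0
      obtain ⟨⟨⟨W0, x0⟩, -, rfl⟩, hb0⟩ := hb0
      refine (card_le_card (t := {β₁ W0, β₂ W0}) ?_).trans card_le_two
      intro b hb
      rw [mem_filter, mem_image] at hb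
      obtain ⟨⟨⟨W, x⟩, -, rfl⟩, hb⟩ := hb
      have hW : W = W0 := Subtype.ext (mc_same hLS hL W.2 W0.2 hb hb0 (be_mem (W, x)) (be_mem (W0, x0)))
      subst hW
      rw [mem_insert, mem_singleton]
      cases x
      · exact Or.inr rfl
      · exact Or.inl rfl
  have hB : ∀ b, (((univ.image al).filter fun a => (a, b) ∈ E)).card ≤ 2 := by
    intro b
    by_cases hemp : ((univ.image al).filter fun a => (a, b) ∈ E) = ∅
    · rw [hemp]; simp
    · obtain ⟨a0, ha0⟩ := nonempty_iff_ne_empty.2 hemp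
      rw [mem_filter, mem_image] at ha0
      obtain ⟨⟨⟨W0, x0⟩, -, rfl⟩, ha0⟩ := ha0
      refine (card_le_card (t := {α₁ W0, α₂ W0}) ?_).trans card_le_two
      intro a ha
      rw [mem_filter, mem_image] at ha
      obtain ⟨⟨⟨W, x⟩, -, rfl⟩, ha⟩ := ha
      have hW : W = W0 := Subtype.ext (mc_same' hLS hL W.2 W0.2 ha ha0 (al_mem (W, x)) (al_mem (W0, x0)))
      subst hW
      rw [mem_insert, mem_singleton]
      cases x
      · exact Or.inr rfl
      · exact Or.inl rfl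
  obtain ⟨f, hf1, hf2⟩ := hall_part hn hE hs hs' hex hex' (univ.image al) (univ.image be)
    (cA.trans cB.symm) (by rw [cB]; omega) hA hB
  let g : Fin N → Fin N := fun a => if h : ∃ i, al i = a then be h.choose else f a
  have g_al : ∀ i, g (al i) = be i := by
    intro i
    have h : ∃ j, al j = al i := ⟨i, rfl⟩
    have h1 : g (al i) = be h.choose := dif_pos h
    rw [h1, al_inj h.choose_spec]
  have g_out : ∀ a, a ∉ univ.image al → g a = f a := by
    intro a ha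
    refine dif_neg ?_
    rintro ⟨i, hi⟩
    exact ha (mem_image.2 ⟨i, mem_univ _, hi⟩)
  have g_mem : ∀ a, (a, g a) ∈ E := by
    intro a
    by_cases ha : a ∈ univ.image al
    · obtain ⟨i, -, rfl⟩ := mem_image.1 ha
      rw [g_al]; exact e_mem i
    · rw [g_out a ha]; exact (hf1 a ha).2
  have g_inj : Function.Injective g := by
    intro a a' h
    by_cases ha : a ∈ univ.image al
    · obtain ⟨i, -, rfl⟩ := mem_image.1 ha
      by_cases ha' : a' ∈ univ.image al
      · obtain ⟨i', -, rfl⟩ := mem_image.1 ha'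
        rw [g_al, g_al] at h
        rw [be_inj h]
      · rw [g_al, g_out a' ha'] at h
        exact absurd (h ▸ mem_image_of_mem be (mem_univ i)) (hf1 a' ha').1
    · by_cases ha' : a' ∈ univ.image al
      · obtain ⟨i', -, rfl⟩ := mem_image.1 ha'
        rw [g_al, g_out a ha] at h
        exact absurd (h.symm ▸ mem_image_of_mem be (mem_univ i')) (hf1 a ha).1
      · rw [g_out a ha, g_out a' ha'] at h
        exact hf2 a a' ha ha' h
  refine ⟨Equiv.ofBijective g (Finite.injective_iff_bijective.1 g_inj), g_mem, fun W hW => ?_⟩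
  obtain ⟨W', hW', hsub⟩ := exists_mc hW
  refine ⟨α₁ ⟨W', hW'⟩, α₂ ⟨W', hW'⟩, hne1 _, hsub (hα₁ ⟨W', hW'⟩), ?_, hsub (hα₂ ⟨W', hW'⟩), ?_⟩
  · have : g (α₁ ⟨W', hW'⟩) = β₁ ⟨W', hW'⟩ := g_al (⟨W', hW'⟩, true)
    rw [Equiv.ofBijective_apply, this]
    exact hsub (hβ₁ ⟨W', hW'⟩)
  · have : g (α₂ ⟨W', hW'⟩) = β₂ ⟨W', hW'⟩ := g_al (⟨W', hW'⟩, false)
    rw [Equiv.ofBijective_apply, this]
    exact hsub (hβ₂ ⟨W', hW'⟩)

end Pool.Agent.Lib.MP_c5b475_co.AA.U
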