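import Pool.Agent.Lib.MP_c5b475_co.AA.Ex3a
import Pool.Agent.Lib.MP_c5b475_co.AA.Ex3b
import Pool.Agent.Lib.MP_c5b475_co.AA.U.Ch

set_option autoImplicit false

/-!
# TS (45 min): one term, small sets

`C(N, s) ≤ (3 N / s) ^ s`, `C(N, 3 s) ≤ (3 N / (3 s)) ^ (3 s) = (N / s) ^ (3 s)` (`choose_mul_le`),
`C(3 n s, n s) ≤ 2 ^ (3 n s)` (`Nat.choose_le_two_pow`); `n N - n (2 s) - 2 n ^ 2 = n (N - 2 s - 2 n)`,
`N - 2 s - 2 n ≥ N / 2`, so (`pow_le_choose_mul`, with `n (N - 2s - 2n)` and `n s`)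
`C(.., n s) ≥ ((N - 2 s - 2 n) / s) ^ (n s) ≥ (N / (2 s)) ^ (n s)`.  With `x = s / N ≤ 1 / 16` it remains
`3 x ^ (-4) 8 ^ n ≤ 3 16 ^ 5 x (1 / (2 x)) ^ n`, i.e. `(16 x) ^ n ≤ (16 x) ^ 5` (raise to the power `s`).
-/

namespace Pool.Agent.Lib.MP_c5b475_co.AA.U

theorem term_small (n N s : ℕ) (hn : 5 ≤ n) (hN : 8 * n ≤ N) (hs : 1 ≤ s) (hsN : 16 * s ≤ N) :
    (N.choose s : ℝ) * N.choose (s + 2 * s) * (n * (s + 2 * s)).choose (n * s) ≤
      (3 * 16 ^ 5 * s / N) ^ s * (n * N - n * (2 * s) - 2 * n ^ 2).choose (n * s) := by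
  have eD : n * N - n * (2 * s) - 2 * n ^ 2 = n * (N - (2 * s + 2 * n)) := by
    rw [Nat.mul_sub, Nat.sub_sub]
    congr 1
    ring
  rw [eD]
  set M := N - (2 * s + 2 * n) with hM
  have hs0 : (0 : ℝ) < s := by exact_mod_cast (show 0 < s by omega)
  have hN0 : (0 : ℝ) < N := by exact_mod_cast (show 0 < N by omega)
  set x : ℝ := (s : ℝ) / N with hx
  have hx0 : 0 < x := by positivity
  have hx16 : 16 * x ≤ 1 := by
    rw [hx, ← mul_div_assoc, div_le_one hN0]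
    exact_mod_cast hsN
  have e1 : (N : ℝ) / s = 1 / x := by rw [hx]; field_simp
  have f1 : (N.choose s : ℝ) ≤ (3 / x) ^ s := by
    have h1 : (N.choose s : ℝ) * (s : ℝ) ^ s ≤ (3 * N) ^ s := by
      exact_mod_cast choose_mul_le N s
    have h2 : (3 / x) ^ s = (3 * N) ^ s / (s : ℝ) ^ s := by
      rw [← div_pow]
      congr 1
      rw [hx]
      field_simp
    rw [h2, le_div_iff₀ (by positivity)]
    exact h1
  have f2 : (N.choose (s + 2 * s) : ℝ) ≤ (1 / x) ^ (3 * s) := by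
    have h0 : s + 2 * s = 3 * s := by ring
    rw [h0]
    have h1 : (N.choose (3 * s) : ℝ) * ((3 * s : ℕ) : ℝ) ^ (3 * s) ≤ (3 * N) ^ (3 * s) := by
      exact_mod_cast choose_mul_le N (3 * s)
    have h2 : (1 / x) ^ (3 * s) = (3 * N) ^ (3 * s) / ((3 * s : ℕ) : ℝ) ^ (3 * s) := by
      rw [← div_pow]
      congr 1
      rw [hx]
      push_cast
      field_simp
    rw [h2, le_div_iff₀ (by positivity)]
    exact h1
  have f3 : ((n * (s + 2 * s)).choose (n * s) : ℝ) ≤ (8 : ℝ) ^ (n * s) := by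
    have h1 : (n * (s + 2 * s)).choose (n * s) ≤ 8 ^ (n * s) := by
      refine (Nat.choose_le_two_pow _ _).trans (le_of_eq ?_)
      have h2 : n * (s + 2 * s) = 3 * (n * s) := by ring
      rw [h2, pow_mul]
      norm_num
    exact_mod_cast h1
  have f4 : (1 / (2 * x)) ^ (n * s) ≤ ((n * M).choose (n * s) : ℝ) := by
    have h1 : (M : ℝ) ^ s ≤ (M.choose s : ℝ) * (s : ℝ) ^ s := by
      exact_mod_cast pow_le_choose_mul M s (by omega)
    have h2 : ((M.choose s : ℝ)) ^ n ≤ ((n * M).choose (n * s) : ℝ) := by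
      exact_mod_cast choose_mul_ge n M s
    refine le_trans ?_ h2
    rw [mul_comm n s, pow_mul]
    refine pow_le_pow_left₀ (by positivity) ?_ n
    have h3 : (N : ℝ) / 2 ≤ M := by
      have : (N : ℝ) ≤ 2 * M := by exact_mod_cast (show N ≤ 2 * M by omega)
      linarith
    have h4 : 1 / (2 * x) ≤ (M : ℝ) / s := by
      have : 1 / (2 * x) = (N : ℝ) / 2 / s := by rw [hx]; field_simp
      rw [this]
      gcongr
    calc (1 / (2 * x)) ^ s ≤ ((M : ℝ) / s) ^ s := pow_le_pow_left₀ (by positivity) h4 s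
      _ = (M : ℝ) ^ s / (s : ℝ) ^ s := div_pow _ _ _
      _ ≤ _ := by
        rw [div_le_iff₀ (by positivity)]
        exact h1
  have e2 : (3 * 16 ^ 5 * (s : ℝ) / N) = 3 * 16 ^ 5 * x := by rw [hx]; ring
  rw [e2]
  have f5 : 3 / x * (1 / x) ^ 3 * 8 ^ n ≤ 3 * 16 ^ 5 * x * (1 / (2 * x)) ^ n := by
    have h1 : (16 * x) ^ n ≤ (16 * x) ^ 5 := pow_le_pow_of_le_one (by positivity) hx16 hn
    have h2 : 3 * 16 ^ 5 * x * (1 / (2 * x)) ^ n =
        3 / x ^ 4 * (16 * x) ^ 5 / (2 * x) ^ n := by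
      rw [div_pow, one_pow]
      field_simp
    have h3 : 3 / x * (1 / x) ^ 3 * 8 ^ n = 3 / x ^ 4 * (16 * x) ^ n / (2 * x) ^ n := by
      have h4 : (16 * x) ^ n = 8 ^ n * (2 * x) ^ n := by
        rw [← mul_pow]
        congr 1
        ring
      rw [h4]
      field_simp
    rw [h2, h3]
    gcongr
  calc (N.choose s : ℝ) * N.choose (s + 2 * s) * (n * (s + 2 * s)).choose (n * s)
      ≤ (3 / x) ^ s * (1 / x) ^ (3 * s) * 8 ^ (n * s) := by gcongr
    _ = (3 / x * (1 / x) ^ 3 * 8 ^ n) ^ s := by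
        rw [mul_pow, mul_pow, ← pow_mul, ← pow_mul]
    _ ≤ (3 * 16 ^ 5 * x * (1 / (2 * x)) ^ n) ^ s := pow_le_pow_left₀ (by positivity) f5 s
    _ = (3 * 16 ^ 5 * x) ^ s * (1 / (2 * x)) ^ (n * s) := by
        rw [mul_pow, ← pow_mul]
    _ ≤ _ := by gcongr

end Pool.Agent.Lib.MP_c5b475_co.AA.U
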