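import Pool.Agent.Lib.MP_c5b475_co.AA.Ex2

set_option autoImplicit false

/-!
# Un (30 min): union bound, general form

As in AA/Ex4a.lean (copy both proofs): `|S| = s ∈ I`, `|nbr E S| < s + q s ≤ N`; choose `Q ⊇ nbr E S` with
`|Q| = s + q s`, so `cr E S Q = 0`; `ex_bound` with `q := q s`.
-/

namespace Pool.Agent.Lib.MP_c5b475_co.AA.U

open Finset

open scoped Classical in
theorem Un_card (n N : ℕ) (q : ℕ → ℕ) (I : Finset ℕ) (h1 : ∀ s ∈ I, s + q s ≤ N) :
    ((BReg N n).filter fun E => ∃ S : Finset (Fin N), S.card ∈ I ∧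
      (nbr E S).card < S.card + q S.card).card ≤
      ∑ s ∈ I, ∑ S ∈ powersetCard s (univ : Finset (Fin N)),
          ∑ Q ∈ powersetCard (s + q s) (univ : Finset (Fin N)), gj n S Q 0 := by
  have hsub : ((BReg N n).filter fun E => ∃ S : Finset (Fin N), S.card ∈ I ∧
      (nbr E S).card < S.card + q S.card) ⊆
      I.biUnion fun s =>
        (powersetCard s (univ : Finset (Fin N))).biUnion fun S =>
          (powersetCard (s + q s) (univ : Finset (Fin N))).biUnion fun Q =>
            (BReg N n).filter fun E => cr E S Q = 0 := by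
    intro E hE
    rw [mem_filter] at hE
    obtain ⟨hE, S, hS, hnb⟩ := hE
    obtain ⟨Q, hQ, hQc⟩ := exists_superset_card_eq (s := nbr E S) (n := S.card + q S.card)
      hnb.le (by rw [Fintype.card_fin]; exact h1 _ hS)
    rw [mem_biUnion]
    refine ⟨S.card, hS, ?_⟩
    rw [mem_biUnion]
    refine ⟨S, mem_powersetCard.mpr ⟨subset_univ _, rfl⟩, ?_⟩
    rw [mem_biUnion]
    refine ⟨Q, mem_powersetCard.mpr ⟨subset_univ _, hQc⟩, ?_⟩
    rw [mem_filter]
    refine ⟨hE, ?_⟩
    unfold cr
    rw [card_eq_zero, filter_eq_empty_iff]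
    rintro ⟨a, b⟩ hab ⟨h1, h2⟩
    apply h2
    apply hQ
    unfold nbr
    rw [mem_filter]
    exact ⟨mem_univ _, a, h1, hab⟩
  refine (card_le_card hsub).trans (card_biUnion_le.trans (sum_le_sum fun s _ =>
    card_biUnion_le.trans (sum_le_sum fun S _ => card_biUnion_le.trans (le_of_eq ?_))))
  rfl

open scoped Classical in
theorem union_bound (n N : ℕ) (q : ℕ → ℕ) (I : Finset ℕ) (h1 : ∀ s ∈ I, s + q s ≤ N)
    (h2 : ∀ s ∈ I, n * s ≤ n * N - n * q s - 2 * n ^ 2) :
    (((BReg N n).filter fun E => ∃ S : Finset (Fin N), S.card ∈ I ∧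
      (nbr E S).card < S.card + q S.card).card : ℝ) ≤
      (∑ s ∈ I, (N.choose s : ℝ) * N.choose (s + q s) * (n * (s + q s)).choose (n * s) /
          (n * N - n * q s - 2 * n ^ 2).choose (n * s)) * (BReg N n).card := by
  have h3 := Un_card n N q I h1
  have h4 : (((BReg N n).filter fun E => ∃ S : Finset (Fin N), S.card ∈ I ∧
      (nbr E S).card < S.card + q S.card).card : ℝ) ≤
      ∑ s ∈ I, ∑ S ∈ powersetCard s (univ : Finset (Fin N)),
        ∑ Q ∈ powersetCard (s + q s) (univ : Finset (Fin N)), (gj n S Q 0 : ℝ) := by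
    exact_mod_cast h3
  refine h4.trans ?_
  rw [sum_mul]
  refine sum_le_sum fun s hs => ?_
  have hD : (0 : ℝ) < (n * N - n * q s - 2 * n ^ 2).choose (n * s) := by
    exact_mod_cast Nat.choose_pos (h2 s hs)
  have h5 : ∀ S ∈ powersetCard s (univ : Finset (Fin N)),
      ∑ Q ∈ powersetCard (s + q s) (univ : Finset (Fin N)), (gj n S Q 0 : ℝ) ≤
        N.choose (s + q s) * ((n * (s + q s)).choose (n * s) /
          (n * N - n * q s - 2 * n ^ 2).choose (n * s) * (BReg N n).card) := by
    intro S hS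
    rw [mem_powersetCard] at hS
    have h6 : ∀ Q ∈ powersetCard (s + q s) (univ : Finset (Fin N)), (gj n S Q 0 : ℝ) ≤
        (n * (s + q s)).choose (n * s) / (n * N - n * q s - 2 * n ^ 2).choose (n * s) *
          (BReg N n).card := by
      intro Q hQ
      rw [mem_powersetCard] at hQ
      have h7 := ex_bound n S Q (q s) (by rw [hQ.2, hS.2])
      rw [hS.2] at h7
      have h8 : (gj n S Q 0 : ℝ) * (n * N - n * q s - 2 * n ^ 2).choose (n * s) ≤
          (n * (s + q s)).choose (n * s) * (BReg N n).card := by exact_mod_cast h7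
      rw [div_mul_eq_mul_div, le_div_iff₀ hD]
      exact h8
    refine (sum_le_card_nsmul _ _ _ h6).trans (le_of_eq ?_)
    rw [nsmul_eq_mul, card_powersetCard, card_univ, Fintype.card_fin]
  refine (sum_le_card_nsmul _ _ _ h5).trans (le_of_eq ?_)
  rw [nsmul_eq_mul, card_powersetCard, card_univ, Fintype.card_fin]
  ring

end Pool.Agent.Lib.MP_c5b475_co.AA.U
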