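import Pool.Agent.Lib.MP_c5b475_co.AA.U.Def
import Pool.Agent.Lib.MP_c5b475_co.AA.U.Un
import Pool.Agent.Lib.MP_c5b475_co.AA.U.TS

set_option autoImplicit false

/-!
# Sm (35 min): small sets expand

`union_bound` with `q s = 2 s`, `I = Icc 1 (N / 2 ^ 23)` (a bad `S` is nonempty).  By `term_small` the sum is at
most `∑_{s ∈ I} y_s ^ s`, `y_s = 3 16 ^ 5 s / N ≤ 1 / 2`, `y_s ^ s ≤ (3 16 ^ 5 / N) s (1 / 2) ^ (s - 1)` and
`∑_{s ≤ m} s (1 / 2) ^ (s - 1) ≤ 4` (induction: equals `4 - (m + 2) 2 ^ (1 - m)`), `12 * 16 ^ 5 ≤ 2 ^ 24`.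
-/

namespace Pool.Agent.Lib.MP_c5b475_co.AA.U

open Finset

theorem Sm_sum (m : ℕ) :
    ∑ s ∈ Icc 1 m, (s : ℝ) * (1 / 2) ^ (s - 1) = 4 - ((m : ℝ) + 2) * 2 * (1 / 2) ^ m := by
  induction m with
  | zero =>
    rw [Icc_eq_empty (by omega), sum_empty]
    norm_num
  | succ m ih =>
    rw [sum_Icc_succ_top (by omega), ih, Nat.add_sub_cancel, pow_succ]
    push_cast
    ring

theorem Sm_sum_le (m : ℕ) : ∑ s ∈ Icc 1 m, (s : ℝ) * (1 / 2) ^ (s - 1) ≤ 4 := by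
  rw [Sm_sum]
  have : (0 : ℝ) ≤ ((m : ℝ) + 2) * 2 * (1 / 2) ^ m := by positivity
  linarith

open scoped Classical in
theorem p_small (n N : ℕ) (hn : 5 ≤ n) (hN : 8 * n ≤ N) :
    (((BReg N n).filter fun E => ¬ SmE E (N / 2 ^ 23)).card : ℝ) * N ≤
      2 ^ 24 * (BReg N n).card := by
  set I := Icc 1 (N / 2 ^ 23) with hI
  have hm : 2 ^ 23 * (N / 2 ^ 23) ≤ N := Nat.mul_div_le N (2 ^ 23)
  have e0 : ∀ s ∈ I, 1 ≤ s ∧ 2 ^ 23 * s ≤ N := by
    intro s hs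
    rw [hI, mem_Icc] at hs
    exact ⟨hs.1, (Nat.mul_le_mul_left _ hs.2).trans hm⟩
  have e1 : ∀ s ∈ I, s + 2 * s ≤ N := by
    intro s hs
    have h1 := e0 s hs
    omega
  have e2 : ∀ s ∈ I, n * s ≤ n * N - n * (2 * s) - 2 * n ^ 2 := by
    intro s hs
    have h0 := e0 s hs
    have h1 : s + 2 * s + 2 * n ≤ N := by omega
    have h2 : n * (s + 2 * s + 2 * n) ≤ n * N := Nat.mul_le_mul_left n h1
    have h3 : n * (s + 2 * s + 2 * n) = n * s + n * (2 * s) + 2 * n ^ 2 := by ring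
    omega
  have hU := union_bound n N (fun s => 2 * s) I e1 e2
  have hsub : ((BReg N n).filter fun E => ¬ SmE E (N / 2 ^ 23)) ⊆
      (BReg N n).filter fun E => ∃ S : Finset (Fin N), S.card ∈ I ∧
        (nbr E S).card < S.card + 2 * S.card := by
    intro E hE
    rw [mem_filter] at hE ⊢
    refine ⟨hE.1, ?_⟩
    have h1 := hE.2
    unfold SmE at h1
    push Not at h1
    obtain ⟨S, hS1, hS2⟩ := h1
    refine ⟨S, ?_, by omega⟩
    rw [hI, mem_Icc]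
    exact ⟨by omega, hS1⟩
  have hcard : (((BReg N n).filter fun E => ¬ SmE E (N / 2 ^ 23)).card : ℝ) ≤
      (((BReg N n).filter fun E => ∃ S : Finset (Fin N), S.card ∈ I ∧
        (nbr E S).card < S.card + 2 * S.card).card : ℝ) := by
    exact_mod_cast card_le_card hsub
  have hN0 : (0 : ℝ) < N := by
    have : 0 < N := by omega
    exact_mod_cast this
  have hsum : ∑ s ∈ I, (N.choose s : ℝ) * N.choose (s + 2 * s) * (n * (s + 2 * s)).choose (n * s) /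
      (n * N - n * (2 * s) - 2 * n ^ 2).choose (n * s) ≤ 2 ^ 24 / (N : ℝ) := by
    have h1 : ∀ s ∈ I, (N.choose s : ℝ) * N.choose (s + 2 * s) *
        (n * (s + 2 * s)).choose (n * s) / (n * N - n * (2 * s) - 2 * n ^ 2).choose (n * s) ≤
          3 * 16 ^ 5 / N * ((s : ℝ) * (1 / 2) ^ (s - 1)) := by
      intro s hs
      obtain ⟨h2, h3⟩ := e0 s hs
      have hD : (0 : ℝ) < (n * N - n * (2 * s) - 2 * n ^ 2).choose (n * s) := by
        exact_mod_cast Nat.choose_pos (e2 s hs)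
      rw [div_le_iff₀ hD]
      refine (term_small n N s hn hN h2 (by omega)).trans ?_
      refine mul_le_mul_of_nonneg_right ?_ hD.le
      obtain ⟨t, rfl⟩ : ∃ t, s = t + 1 := ⟨s - 1, by omega⟩
      have h4 : (3 * 16 ^ 5 * ((t + 1 : ℕ) : ℝ) / N) ≤ 1 / 2 := by
        rw [div_le_div_iff₀ hN0 (by norm_num)]
        have h5 : (2 : ℝ) ^ 23 * ((t + 1 : ℕ) : ℝ) ≤ N := by exact_mod_cast h3
        nlinarith
      have h5 : (0 : ℝ) ≤ 3 * 16 ^ 5 * ((t + 1 : ℕ) : ℝ) / N := by positivity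
      rw [pow_succ, Nat.add_sub_cancel]
      calc (3 * 16 ^ 5 * ((t + 1 : ℕ) : ℝ) / N) ^ t * (3 * 16 ^ 5 * ((t + 1 : ℕ) : ℝ) / N)
          ≤ (1 / 2) ^ t * (3 * 16 ^ 5 * ((t + 1 : ℕ) : ℝ) / N) :=
            mul_le_mul_of_nonneg_right (pow_le_pow_left₀ h5 h4 t) h5
        _ = _ := by ring
    refine (sum_le_sum h1).trans ?_
    rw [← mul_sum]
    have h2 := Sm_sum_le (N / 2 ^ 23)
    calc 3 * 16 ^ 5 / (N : ℝ) * ∑ s ∈ I, (s : ℝ) * (1 / 2) ^ (s - 1)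
        ≤ 3 * 16 ^ 5 / (N : ℝ) * 4 := mul_le_mul_of_nonneg_left h2 (by positivity)
      _ = (3 * 16 ^ 5 * 4) / (N : ℝ) := by ring
      _ ≤ 2 ^ 24 / (N : ℝ) := div_le_div_of_nonneg_right (by norm_num) hN0.le
  have hB : (0 : ℝ) ≤ (BReg N n).card := Nat.cast_nonneg _
  have hfin := hcard.trans (hU.trans (mul_le_mul_of_nonneg_right hsum hB))
  rw [div_mul_eq_mul_div, le_div_iff₀ hN0] at hfin
  exact hfin

end Pool.Agent.Lib.MP_c5b475_co.AA.U
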