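import Pool.Agent.Lib.MP_c5b475_co.AA.U.Def

set_option autoImplicit false

/-!
# Wk (40 min): the colour walk, trees of diameter at most `d`

Copy `phi_injective` (AA/D4b.lean) and `walk_decomposes` (AA/D4.lean) with `cyc E d`, `d ≤ L`; the only change is the
length of the path `p` from `u` to `u'` in `R.inner ρ`: `p.mapLe` (`R.inner ρ ≤ T`) is a path in `T`, by
`hT.existsUnique_path` it is the path of `hT.connected.exists_path_of_dist u u'`, so `p.length = T.dist u u' ≤ d`.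
-/

namespace Pool.Agent.Lib.MP_c5b475_co.AA.U

open Finset

variable {N : ℕ}

theorem phi_injective {n d L : ℕ} {E : Finset (Fin N × Fin N)}
    (hLS : LS E L) (hL : d ≤ L) (σ : Equiv.Perm (Fin N))
    (h2 : ∀ W ∈ cyc E d, ∃ a₁ a₂, a₁ ≠ a₂ ∧
      Sum.inl a₁ ∈ W ∧ Sum.inr (σ a₁) ∈ W ∧ Sum.inl a₂ ∈ W ∧ Sum.inr (σ a₂) ∈ W)
    {T : SimpleGraph (Fin (n + 1))} (hT : T.IsTree) (hd : ∀ u v, T.dist u v ≤ d) (R : RT T)
    (m : {u : Fin (n + 1) // u ≠ R.c} → Fin N ⊕ Fin N → Fin N ⊕ Fin N)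
    (m1 : ∀ i v, (gr E).Adj v (m i v)) (m2 : ∀ i v, m i (m i v) = v)
    (m3 : ∀ u v, (gr E).Adj u v → ∃! i, m i u = v) (i0 : {u : Fin (n + 1) // u ≠ R.c})
    (m4 : ∀ a, m i0 (Sum.inl a) = Sum.inr (σ a)) (v : Fin N ⊕ Fin N) (u u' : Fin (n + 1))
    (h : R.phi m v u = R.phi m v u') : u = u' := by
  classical
  by_contra hne
  obtain ⟨ρ, hρ⟩ : ∃ ρ, ∀ x, R.dep x ≤ ρ :=
    ⟨univ.sup R.dep, fun x => Finset.le_sup (f := R.dep) (mem_univ x)⟩
  obtain ⟨p1, _⟩ := R.exists_root_walk ρ u (hρ u)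
  obtain ⟨p2, _⟩ := R.exists_root_walk ρ u' (hρ u')
  obtain ⟨p, hp⟩ : ∃ p : (R.inner ρ).Walk u u', p.IsPath :=
    ⟨(p1.append p2.reverse).bypass, SimpleGraph.Walk.bypass_isPath _⟩
  have hle : R.inner ρ ≤ T := fun x y hxy => hxy.1
  have hlen : p.length ≤ d := by
    obtain ⟨p', hp', hl'⟩ := hT.connected.exists_path_of_dist u u'
    have hpT : (p.mapLe hle).IsPath := hp.mapLe hle
    have heq := (hT.existsUnique_path u u').unique hp' hpT
    have h3 : (p.mapLe hle).length = p.length := SimpleGraph.Walk.length_map _ _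
    rw [← h3, ← heq, hl']
    exact hd u u'
  have hpos : 0 < p.length := by
    rcases Nat.eq_zero_or_pos p.length with h0 | h0
    · exact absurd (SimpleGraph.Walk.eq_of_length_eq_zero h0) hne
    · exact h0
  obtain ⟨q, hqdef⟩ : ∃ q, q = p.map (R.hom m m1 ρ v) := ⟨_, rfl⟩
  have hqt : q.IsTrail := by
    rw [hqdef]
    exact (R.map_trail m m1 m2 m3 v p hp.isTrail).1
  have hql : q.length = p.length := by rw [hqdef, SimpleGraph.Walk.length_map]
  have key : ∀ e ∈ q.edges, ∃ x : {u : Fin (n + 1) // u ≠ R.c},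
      e = s(R.phi m v (R.par x.1), m x (R.phi m v (R.par x.1))) := by
    intro e he
    rw [hqdef, SimpleGraph.Walk.edges_map, List.mem_map] at he
    obtain ⟨e', he', rfl⟩ := he
    obtain ⟨x, _, rfl⟩ := R.inner_edge (p.edges_subset_edgeSet he')
    refine ⟨x, ?_⟩
    rw [Sym2.map_mk]
    change s(R.phi m v x.1, R.phi m v (R.par x.1)) = _
    rw [R.phi_ne m v x.2]
    exact Sym2.eq_swap
  have key2 : ∀ x, s(x, m i0 x) ∈ q.edges →
      s(x, m i0 x) = s(R.phi m v (R.par i0.1), m i0 (R.phi m v (R.par i0.1))) := by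
    intro x hx
    obtain ⟨y, hy⟩ := key _ hx
    have := R.colour_unique m m1 m2 m3 hy
    subst this
    exact hy
  obtain ⟨W, hW⟩ : ∃ W, W = q.support.toFinset := ⟨_, rfl⟩
  have hWcard : W.card ≤ q.length := by
    rw [hW]
    exact D4b_support q h (by rw [hql]; exact hpos)
  obtain ⟨F, hF⟩ : ∃ F, F = E.filter fun p => Sum.inl p.1 ∈ W ∧ Sum.inr p.2 ∈ W := ⟨_, rfl⟩
  have heW : eW E W = F.card := by rw [hF]; rfl
  have hsub : q.edges.toFinset ⊆
      F.image (fun p : Fin N × Fin N => (s(Sum.inl p.1, Sum.inr p.2) : Sym2 (Fin N ⊕ Fin N))) := by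
    intro e he
    rw [List.mem_toFinset] at he
    induction e using Sym2.ind with
    | _ x y =>
      have hadj : (gr E).Adj x y := q.adj_of_mem_edges he
      have hx : x ∈ W := by
        rw [hW, List.mem_toFinset]
        exact q.fst_mem_support_of_mem_edges he
      have hy : y ∈ W := by
        rw [hW, List.mem_toFinset]
        exact q.snd_mem_support_of_mem_edges he
      rw [mem_image]
      obtain ⟨a, b, hab, ⟨rfl, rfl⟩ | ⟨rfl, rfl⟩⟩ := hadj
      · refine ⟨(a, b), ?_, rfl⟩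
        rw [hF, mem_filter]
        exact ⟨hab, hx, hy⟩
      · refine ⟨(a, b), ?_, Sym2.eq_swap⟩
        rw [hF, mem_filter]
        exact ⟨hab, hy, hx⟩
  have hqcard : q.edges.toFinset.card = q.length := by
    rw [List.toFinset_card_of_nodup hqt.edges_nodup, SimpleGraph.Walk.length_edges]
  have hle1 : q.length ≤ eW E W := by
    rw [← hqcard, heW]
    exact (card_le_card hsub).trans card_image_le
  have hWn : W.card ≤ d := by omega
  have hcyc : W ∈ cyc E d := by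
    unfold cyc
    rw [mem_filter]
    refine ⟨mem_univ _, ⟨(R.hom m m1 ρ v) u, ?_⟩, hWn, hWcard.trans hle1⟩
    rw [hW, List.mem_toFinset]
    exact q.start_mem_support
  have hLS' : eW E W ≤ W.card := hLS W (hWn.trans hL)
  have heq : q.edges.toFinset =
      F.image (fun p : Fin N × Fin N => (s(Sum.inl p.1, Sum.inr p.2) : Sym2 (Fin N ⊕ Fin N))) := by
    apply eq_of_subset_of_card_le hsub
    refine card_image_le.trans ?_
    rw [hqcard, ← heW]
    exact hLS'.trans hWcard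
  have hall : ∀ a, Sum.inl a ∈ W → Sum.inr (σ a) ∈ W → s(Sum.inl a, m i0 (Sum.inl a)) ∈ q.edges := by
    intro a ha hb
    rw [← List.mem_toFinset, heq, mem_image]
    refine ⟨(a, σ a), ?_, ?_⟩
    · rw [hF, mem_filter]
      refine ⟨?_, ha, hb⟩
      have hadj := m1 i0 (Sum.inl a)
      rw [m4] at hadj
      obtain ⟨a', b', hab, ⟨h3, h4⟩ | ⟨h3, h4⟩⟩ := hadj
      · rw [Sum.inl.injEq] at h3
        rw [Sum.inr.injEq] at h4
        subst h3
        subst h4
        exact hab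
      · exact absurd h3 (by simp)
    · rw [m4]
  obtain ⟨a₁, a₂, hne12, ha1, hb1, ha2, hb2⟩ := h2 W hcyc
  have e1 := key2 _ (hall a₁ ha1 hb1)
  have e2 := key2 _ (hall a₂ ha2 hb2)
  rw [← e2, m4, m4, Sym2.eq_iff] at e1
  rcases e1 with ⟨h3, _⟩ | ⟨h3, _⟩
  · exact hne12 (Sum.inl.inj h3)
  · exact absurd h3 (by simp)

theorem walk_decomposes {n d L : ℕ} (hn : 1 ≤ n) {E : Finset (Fin N × Fin N)} (hE : E ∈ BReg N n)
    (hLS : LS E L) (hL : d ≤ L) (σ : Equiv.Perm (Fin N)) (h1 : ∀ a, (a, σ a) ∈ E)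
    (h2 : ∀ W ∈ cyc E d, ∃ a₁ a₂, a₁ ≠ a₂ ∧
      Sum.inl a₁ ∈ W ∧ Sum.inr (σ a₁) ∈ W ∧ Sum.inl a₂ ∈ W ∧ Sum.inr (σ a₂) ∈ W)
    (T : SimpleGraph (Fin (n + 1))) (hT : T.IsTree) (hd : ∀ u v, T.dist u v ≤ d) :
    Decomposes T (gr E) := by
  classical
  obtain ⟨R, hRc, hRd⟩ := exists_RT hT 0
  have hcard : Fintype.card {u : Fin (n + 1) // u ≠ R.c} = n := by
    rw [Fintype.card_subtype_compl, Fintype.card_subtype_eq]
    simp
  have hne : Nonempty {u : Fin (n + 1) // u ≠ R.c} := by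
    rw [← Fintype.card_pos_iff, hcard]
    omega
  obtain ⟨i0⟩ := hne
  obtain ⟨m, m1, m2, m3, m4⟩ := exists_colours hE σ h1 hcard i0
  let s : Fin N ⊕ Fin N → ZMod 2 := Sum.elim (fun _ => 0) (fun _ => 1)
  obtain ⟨f, hf1, hf2⟩ := R.decompose_layer' univ (mem_univ _) (fun u _ _ => mem_univ _)
    (fun u _ => mem_univ _) m m1 m2 m3 s (by
      rintro u v ⟨a, b, -, ⟨rfl, rfl⟩ | ⟨rfl, rfl⟩⟩
      · change (1 : ZMod 2) = 0 + 1
        decide
      · change (0 : ZMod 2) = 1 + 1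
        decide)
    (fun v _ u _ u' _ h => phi_injective hLS hL σ h2 hT hd R m m1 m2 m3 i0 m4 v u u' h)
    (fun v _ w hw => absurd (mem_univ _) hw)
  exact ⟨_, f, hf1, hf2⟩

end Pool.Agent.Lib.MP_c5b475_co.AA.U
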