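import Mathlib

set_option autoImplicit false

/-!
# Yn (35 min, only Mathlib): a numerical estimate

`(2 d + 1) ^ 2 ≤ 2 ^ (2 d + 2)` (`2 d + 1 ≤ 2 ^ (d + 1)`), so `Y := (2 d + 1) ^ 2 (36 n) ^ (2 d + 2) ≤ (72 n) ^ (2 d + 2)` and
`Y (72 n) ≤ N`.  If `72 n δ ≥ 1` this gives `Y ≤ δ N`.  Otherwise `n ≤ m := ⌈1 / δ⌉`, `d ≤ m`, `Y ≤ (72 m) ^ (2 m + 2)`, which
is at most `δ N` for large `N`.
-/

namespace Pool.Agent.Lib.MP_c5b475_co.AA.U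

theorem y_small (δ : ℝ) (hδ : 0 < δ) : ∃ N0 : ℕ, ∀ N n d : ℕ, N0 ≤ N → 1 ≤ n → d ≤ n →
    (72 * n) ^ (2 * d + 3) ≤ N →
    (((2 * d + 1) ^ 2 * (36 * n) ^ (2 * d + 2) : ℕ) : ℝ) ≤ δ * N := by
  set m : ℕ := ⌈1 / δ⌉₊ with hm
  obtain ⟨N0, hN0⟩ := exists_nat_ge ((((72 * m) ^ (2 * m + 2) : ℕ) : ℝ) / δ)
  refine ⟨N0, fun N n d hN hn hd h => ?_⟩
  have h1 : 2 * d + 1 ≤ 2 ^ (d + 1) := by
    clear hd h
    induction d with
    | zero => norm_num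
    | succ d ih =>
      rw [pow_succ]
      have : 1 ≤ 2 ^ (d + 1) := Nat.one_le_two_pow
      omega
  have h2 : (2 * d + 1) ^ 2 * (36 * n) ^ (2 * d + 2) ≤ (72 * n) ^ (2 * d + 2) := by
    calc (2 * d + 1) ^ 2 * (36 * n) ^ (2 * d + 2)
        ≤ (2 ^ (d + 1)) ^ 2 * (36 * n) ^ (2 * d + 2) :=
          Nat.mul_le_mul_right _ (Nat.pow_le_pow_left h1 2)
      _ = (72 * n) ^ (2 * d + 2) := by
          have e : (2 ^ (d + 1)) ^ 2 = 2 ^ (2 * d + 2) := by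
            rw [← pow_mul]
            congr 1
            ring
          rw [e, ← mul_pow]
          congr 1
          ring
  have h2' : (((2 * d + 1) ^ 2 * (36 * n) ^ (2 * d + 2) : ℕ) : ℝ) ≤
      (((72 * n) ^ (2 * d + 2) : ℕ) : ℝ) := by exact_mod_cast h2
  refine h2'.trans ?_
  by_cases hc : 1 ≤ 72 * n * δ
  · have h3 : (72 * n) ^ (2 * d + 2) * (72 * n) ≤ N := by
      rw [← pow_succ]
      exact h
    have h4 : (((72 * n) ^ (2 * d + 2) : ℕ) : ℝ) * (72 * n) ≤ N := by exact_mod_cast h3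
    have h5 : (0 : ℝ) ≤ (((72 * n) ^ (2 * d + 2) : ℕ) : ℝ) := Nat.cast_nonneg _
    calc (((72 * n) ^ (2 * d + 2) : ℕ) : ℝ) ≤ (((72 * n) ^ (2 * d + 2) : ℕ) : ℝ) * (72 * n * δ) :=
          le_mul_of_one_le_right h5 hc
      _ = δ * ((((72 * n) ^ (2 * d + 2) : ℕ) : ℝ) * (72 * n)) := by ring
      _ ≤ δ * N := mul_le_mul_of_nonneg_left h4 hδ.le
  · rw [not_le] at hc
    have hnm : n ≤ m := by
      have h6 : (n : ℝ) ≤ 1 / δ := by
        rw [le_div_iff₀ hδ]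
        have : (0 : ℝ) ≤ n * δ := by positivity
        linarith
      have h7 : (n : ℝ) ≤ (m : ℝ) := h6.trans (Nat.le_ceil _)
      exact_mod_cast h7
    have h8 : (72 * n) ^ (2 * d + 2) ≤ (72 * m) ^ (2 * m + 2) :=
      (Nat.pow_le_pow_left (Nat.mul_le_mul_left _ hnm) _).trans
        (Nat.pow_le_pow_right (by omega) (by omega))
    have h9 : (((72 * n) ^ (2 * d + 2) : ℕ) : ℝ) ≤ (((72 * m) ^ (2 * m + 2) : ℕ) : ℝ) := by
      exact_mod_cast h8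
    refine h9.trans ?_
    have h10 : (((72 * m) ^ (2 * m + 2) : ℕ) : ℝ) / δ ≤ N := hN0.trans (by exact_mod_cast hN)
    rw [div_le_iff₀ hδ] at h10
    linarith

end Pool.Agent.Lib.MP_c5b475_co.AA.U
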