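import Pool.Agent.Lib.MP_c5b475_co.AA.U.Ls
import Pool.Agent.Lib.MP_c5b475_co.AA.U.Fc
import Pool.Agent.Lib.MP_c5b475_co.AA.U.Lg
import Pool.Agent.Lib.MP_c5b475_co.AA.U.Sm
import Pool.Agent.Lib.MP_c5b475_co.AA.U.Pm
import Pool.Agent.Lib.MP_c5b475_co.AA.U.Wk
import Pool.Agent.Lib.MP_c5b475_co.AA.U.Hs
import Pool.Agent.Lib.MP_c5b475_co.AA.U.Yn

set_option autoImplicit false

/-!
# Almost all hosts, uniform version
-/

namespace Pool.Agent.Lib.MP_c5b475_co.AA.U

open Finset

open scoped Classical in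
/-- the number of exceptions is small -/
theorem few_bad (ε : ℝ) (hε : 0 < ε) : ∃ N0 : ℕ, ∀ N n d : ℕ, N0 ≤ N → 5 ≤ n → d ≤ n →
    (72 * n) ^ (2 * d + 3) ≤ N →
    (((BReg N n).filter fun E => ¬ GoodD n d N (gr E)).card : ℝ) ≤ ε * (BReg N n).card := by
  obtain ⟨δ, hδ0, hδ1, hδε⟩ : ∃ δ : ℝ, 0 < δ ∧ δ ≤ 1 ∧ 6 * δ ≤ ε :=
    ⟨min 1 (ε / 6), by positivity, min_le_left _ _, by
      have := min_le_right (1 : ℝ) (ε / 6); linarith⟩
  obtain ⟨N1, hN1⟩ := y_small (δ ^ 2) (by positivity)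
  obtain ⟨N2, hN2⟩ := p_large
  obtain ⟨N3, hN3⟩ := exists_nat_ge ((2 : ℝ) ^ 24 / δ)
  refine ⟨max N1 (max N2 (N3 + 1)), fun N n d hN hn hdn hnd => ?_⟩
  have hNN1 : N1 ≤ N := (le_max_left _ _).trans hN
  have hNN2 : N2 ≤ N := (le_max_left _ _).trans ((le_max_right _ _).trans hN)
  have hNN3 : N3 + 1 ≤ N := (le_max_right _ _).trans ((le_max_right _ _).trans hN)
  have h1N : 1 ≤ N := by omega
  have hN0 : (0 : ℝ) < N := by exact_mod_cast h1N
  have h72 : 1 ≤ 72 * n := by omega
  have hp1 : 72 * n ≤ N := by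
    refine le_trans ?_ hnd
    exact Nat.le_self_pow (by omega) _
  have hp2 : (72 * n) ^ 2 ≤ N := le_trans (Nat.pow_le_pow_right h72 (by omega)) hnd
  have hsq : n ≤ Nat.sqrt N := by
    rw [Nat.le_sqrt]
    nlinarith
  have hnN : 2 * (2 * n ^ 2 + (2 * d + 1 + 1)) ≤ n * N := by
    have h1 : n * (72 * n) ≤ n * N := Nat.mul_le_mul_left n hp1
    nlinarith
  set B : ℝ := ((BReg N n).card : ℝ) with hB
  have hB0 : 0 ≤ B := by positivity
  set K := Nat.sqrt N with hK
  set M := N / 2 ^ 23 with hM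
  have hY := hN1 N n d hNN1 (by omega) hdn hnd
  set Y : ℕ := (2 * d + 1) ^ 2 * (36 * n) ^ (2 * d + 2) with hYdef
  -- locally sparse
  have a1 : (((BReg N n).filter fun E => ¬ LS E (2 * d + 1)).card : ℝ) ≤ δ * B := by
    have h1 := p_ls n (2 * d + 1) N (by omega) h1N hnN
    have h2 : (((BReg N n).filter fun E => ¬ LS E (2 * d + 1)).card : ℝ) * N ≤ Y * B := by
      rw [hB, hYdef]
      exact_mod_cast h1
    have h3 : (Y : ℝ) ≤ δ * N := by
      refine hY.trans ?_
      apply mul_le_mul_of_nonneg_right _ hN0.le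
      nlinarith
    have h4 : (((BReg N n).filter fun E => ¬ LS E (2 * d + 1)).card : ℝ) * N ≤ (δ * B) * N := by
      calc _ ≤ (Y : ℝ) * B := h2
        _ ≤ δ * N * B := mul_le_mul_of_nonneg_right h3 hB0
        _ = _ := by ring
    exact le_of_mul_le_mul_right h4 hN0
  -- few short cycles
  have a2 : (((BReg N n).filter fun E => K < (cyc E d).card).card : ℝ) ≤ δ * B := by
    have h1 := p_fc n d N K (by omega) h1N (by omega)
    have h2 : ((K : ℝ) + 1) * (((BReg N n).filter fun E => K < (cyc E d).card).card : ℝ) ≤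
        2 * (36 * n) ^ d * B := by
      rw [hB]
      exact_mod_cast h1
    have h3 : (N : ℝ) ≤ ((K : ℝ) + 1) ^ 2 := by
      have h4 := Nat.lt_succ_sqrt N
      rw [← hK] at h4
      have h5 : N ≤ (K + 1) ^ 2 := by
        rw [sq]; exact h4.le
      exact_mod_cast h5
    have h4 : (2 * (36 * n) ^ d) ^ 2 ≤ Y := by
      rw [hYdef]
      have h5 : (2 * (36 * n) ^ d) ^ 2 = 4 * (36 * n) ^ (2 * d) := by
        rw [mul_pow, ← pow_mul, mul_comm d 2]; norm_num
      rw [h5, pow_add (36 * n) (2 * d) 2]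
      have h6 : 1 ≤ (2 * d + 1) ^ 2 := Nat.one_le_pow _ _ (by omega)
      have h7 : 4 ≤ (36 * n) ^ 2 := by nlinarith
      calc 4 * (36 * n) ^ (2 * d) = 1 * ((36 * n) ^ (2 * d) * 4) := by ring
        _ ≤ (2 * d + 1) ^ 2 * ((36 * n) ^ (2 * d) * (36 * n) ^ 2) :=
          Nat.mul_le_mul h6 (Nat.mul_le_mul_left _ h7)
    have h5 : ((2 * (36 * (n : ℝ)) ^ d)) ^ 2 ≤ (δ * ((K : ℝ) + 1)) ^ 2 := by
      calc ((2 * (36 * (n : ℝ)) ^ d)) ^ 2 ≤ (Y : ℝ) := by exact_mod_cast h4
        _ ≤ δ ^ 2 * N := hY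
        _ ≤ δ ^ 2 * ((K : ℝ) + 1) ^ 2 := mul_le_mul_of_nonneg_left h3 (by positivity)
        _ = _ := by ring
    have h6 : 2 * (36 * (n : ℝ)) ^ d ≤ δ * ((K : ℝ) + 1) :=
      le_of_sq_le_sq h5 (by positivity)
    have hK1 : (0 : ℝ) < (K : ℝ) + 1 := by positivity
    have h7 : ((K : ℝ) + 1) * (((BReg N n).filter fun E => K < (cyc E d).card).card : ℝ) ≤
        ((K : ℝ) + 1) * (δ * B) := by
      calc _ ≤ 2 * (36 * (n : ℝ)) ^ d * B := h2
        _ ≤ δ * ((K : ℝ) + 1) * B := mul_le_mul_of_nonneg_right h6 hB0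
        _ = _ := by ring
    exact le_of_mul_le_mul_left h7 hK1
  -- expansion
  have hNδ : (2 : ℝ) ^ 24 ≤ δ * N := by
    have h1 : (2 : ℝ) ^ 24 / δ ≤ N := hN3.trans (by exact_mod_cast (show N3 ≤ N by omega))
    rw [div_le_iff₀ hδ0] at h1
    linarith
  have a3 : (((BReg N n).filter fun E => ¬ Expd E (2 * K) M).card : ℝ) ≤ δ * B := by
    have h1 := hN2 N n hNN2 hn hsq
    rw [← hB] at h1
    have h2 : (((BReg N n).filter fun E => ¬ Expd E (2 * K) M).card : ℝ) * N ≤ (δ * B) * N := by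
      calc _ ≤ B := h1
        _ = 1 * B := (one_mul _).symm
        _ ≤ (δ * N) * B := mul_le_mul_of_nonneg_right (le_trans (by norm_num) hNδ) hB0
        _ = _ := by ring
    exact le_of_mul_le_mul_right h2 hN0
  have a4 : (((BReg N n).filter fun E => ¬ SmE E M).card : ℝ) ≤ δ * B := by
    have h1 := p_small n N hn (by omega)
    rw [← hB] at h1
    have h2 : (((BReg N n).filter fun E => ¬ SmE E M).card : ℝ) * N ≤ (δ * B) * N := by
      calc _ ≤ 2 ^ 24 * B := h1
        _ ≤ (δ * N) * B := mul_le_mul_of_nonneg_right hNδ hB0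
        _ = _ := by ring
    exact le_of_mul_le_mul_right h2 hN0
  have a5 : (((BReg N n).filter fun E => ¬ Expd (tr E) (2 * K) M).card : ℝ) ≤ δ * B := by
    refine le_trans (Nat.cast_le.mpr ?_) a3
    convert card_tr (N := N) (n := n) (fun E => ¬ Expd E (2 * K) M)
  have a6 : (((BReg N n).filter fun E => ¬ SmE (tr E) M).card : ℝ) ≤ δ * B := by
    refine le_trans (Nat.cast_le.mpr ?_) a4
    convert card_tr (N := N) (n := n) (fun E => ¬ SmE E M)
  have key : ((BReg N n).filter fun E => ¬ GoodD n d N (gr E)) ⊆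
      ((BReg N n).filter fun E => ¬ LS E (2 * d + 1)) ∪
      (((BReg N n).filter fun E => K < (cyc E d).card) ∪
      (((BReg N n).filter fun E => ¬ Expd E (2 * K) M) ∪
      (((BReg N n).filter fun E => ¬ SmE E M) ∪
      (((BReg N n).filter fun E => ¬ Expd (tr E) (2 * K) M) ∪
      ((BReg N n).filter fun E => ¬ SmE (tr E) M))))) := by
    intro E hE
    rw [mem_filter] at hE
    obtain ⟨hE, hbad⟩ := hE
    simp only [mem_union, mem_filter, hE, true_and]
    by_contra hcon
    push Not at hcon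
    obtain ⟨h1, h2, h3, h4, h5, h6⟩ := hcon
    apply hbad
    intro T hT hd
    obtain ⟨σ, hσ1, hσ2⟩ := exists_perm (by omega) hE h1 le_rfl h2 h4 h6 h3 h5
    exact walk_decomposes (by omega) hE h1 (by omega) σ hσ1 hσ2 T hT hd
  have hcard := (card_le_card key).trans ((card_union_le _ _).trans (Nat.add_le_add_left
    ((card_union_le _ _).trans (Nat.add_le_add_left ((card_union_le _ _).trans (Nat.add_le_add_left
    ((card_union_le _ _).trans (Nat.add_le_add_left (card_union_le _ _) _)) _)) _)) _))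
  have hcard' : (((BReg N n).filter fun E => ¬ GoodD n d N (gr E)).card : ℝ) ≤
      (((BReg N n).filter fun E => ¬ LS E (2 * d + 1)).card : ℝ) +
      ((((BReg N n).filter fun E => K < (cyc E d).card).card : ℝ) +
      ((((BReg N n).filter fun E => ¬ Expd E (2 * K) M).card : ℝ) +
      ((((BReg N n).filter fun E => ¬ SmE E M).card : ℝ) +
      ((((BReg N n).filter fun E => ¬ Expd (tr E) (2 * K) M).card : ℝ) +
      (((BReg N n).filter fun E => ¬ SmE (tr E) M).card : ℝ))))) := by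
    exact_mod_cast hcard
  have hfin : 6 * δ * B ≤ ε * B := mul_le_mul_of_nonneg_right hδε hB0
  linarith

theorem dist_le {n : ℕ} {T : SimpleGraph (Fin (n + 1))} (hT : T.IsTree) (u v : Fin (n + 1)) :
    T.dist u v ≤ n := by
  obtain ⟨p, hp, hl⟩ := hT.connected.exists_path_of_dist u v
  have h := hp.length_lt
  rw [Fintype.card_fin, hl] at h
  omega

/-- **Almost all hosts, uniform version.** -/
theorem almost_all (ε : ℝ) (hε : 0 < ε) : ∃ N0 : ℕ, ∀ N n d : ℕ, N0 ≤ N →
    (72 * n) ^ (2 * d + 3) ≤ N →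
    (1 - ε) * (Nat.card {G : SimpleGraph (Fin N ⊕ Fin N) // IsHost N n G} : ℝ) ≤
      Nat.card {G : SimpleGraph (Fin N ⊕ Fin N) // IsHost N n G ∧
        ∀ T : SimpleGraph (Fin (n + 1)), T.IsTree → (∀ u v, T.dist u v ≤ d) → Decomposes T G} := by
  classical
  obtain ⟨N0, hN0⟩ := few_bad ε hε
  refine ⟨N0, fun N n d hN hnd => ?_⟩
  have htot : Nat.card {G : SimpleGraph (Fin N ⊕ Fin N) // IsHost N n G} = (BReg N n).card := by
    have h := card_host N n (fun _ => True)
    simp only [and_true, filter_true] at h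
    exact h
  have hgood : Nat.card {G : SimpleGraph (Fin N ⊕ Fin N) // IsHost N n G ∧
      ∀ T : SimpleGraph (Fin (n + 1)), T.IsTree → (∀ u v, T.dist u v ≤ d) → Decomposes T G} =
      ((BReg N n).filter fun E => GoodD n d N (gr E)).card := card_host N n (GoodD n d N)
  rw [htot, hgood]
  have hbad : (((BReg N n).filter fun E => ¬ GoodD n d N (gr E)).card : ℝ) ≤
      ε * (BReg N n).card := by
    by_cases hs : n ≤ 4 ∨ d ≤ 4
    · have : ((BReg N n).filter fun E => ¬ GoodD n d N (gr E)) = ∅ := by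
        rw [filter_eq_empty_iff]
        intro E hE hcon
        refine hcon fun T hT hd => small_host hE T hT fun u v => ?_
        rcases hs with hs | hs
        · exact (dist_le hT u v).trans hs
        · exact (hd u v).trans hs
      rw [this]
      simp only [card_empty, Nat.cast_zero]
      positivity
    · push Not at hs
      by_cases hdn : d ≤ n
      · exact hN0 N n d hN (by omega) hdn hnd
      · have h1 : (72 * n) ^ (2 * n + 3) ≤ N :=
          le_trans (Nat.pow_le_pow_right (by omega) (by omega)) hnd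
        refine le_trans ?_ (hN0 N n n hN (by omega) le_rfl h1)
        have h2 : ((BReg N n).filter fun E => ¬ GoodD n d N (gr E)) ⊆
            ((BReg N n).filter fun E => ¬ GoodD n n N (gr E)) := by
          intro E hE
          rw [mem_filter] at hE ⊢
          exact ⟨hE.1, fun hcon => hE.2 fun T hT _ => hcon T hT (dist_le hT)⟩
        exact_mod_cast card_le_card h2
  have h2 := card_filter_add_card_filter_not (s := BReg N n)
    (fun E => GoodD n d N (gr E))
  have h3 : (((BReg N n).filter fun E => GoodD n d N (gr E)).card : ℝ) = (BReg N n).card -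
      (((BReg N n).filter fun E => ¬ GoodD n d N (gr E)).card : ℝ) := by
    rw [← h2]
    push_cast
    ring
  rw [h3]
  linarith

end Pool.Agent.Lib.MP_c5b475_co.AA.U
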